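import Pool.Agent.H46.Wx.B
set_option autoImplicit false
open Polynomial
namespace Pool.Agent.H46.Tn
open Wx

lemma evm (Q : ℤ[X]) (z : ℂ) : eval z (Q.map (Int.castRingHom ℂ)) = aeval z Q := by
  rw [← algebraMap_int_eq, eval_map_algebraMap]

lemma mm_mul (P Q : ℤ[X]) : mm (P * Q) = mm P * mm Q := by
  rw [mm, Polynomial.map_mul, mahlerMeasure_mul]

lemma mm_circ {Q : ℤ[X]} {S : ℝ} (hS : 1 ≤ S) (h : ∀ z : ℂ, ‖z‖ = 1 → ‖aeval z Q‖ ≤ S) :
    mm Q ≤ S := by
  rw [mm, mahlerMeasure]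
  split_ifs with h0
  swap; · linarith
  rw [← Real.le_log_iff_exp_le (by linarith), logMahlerMeasure_def]
  refine Real.circleAverage_mono_on_of_le_circle (intervalIntegrable_mahlerMeasure _)
    fun z hz => ?_
  rw [evm]
  obtain e | e := (norm_nonneg (aeval z Q)).eq_or_lt
  · rw [← e, Real.log_zero]; exact Real.log_nonneg hS
  · exact Real.log_le_log e (h z (by simpa using hz))

/-- sup bound on the closed unit disc -/
def Sz (P : ℤ[X]) (S : ℝ) : Prop := ∀ z : ℂ, ‖z‖ ≤ 1 → ‖aeval z P‖ ≤ S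

lemma maxmod {P : ℤ[X]} {S : ℝ} (h : ∀ z : ℂ, ‖z‖ = 1 → ‖aeval z P‖ ≤ S) : Sz P S := fun z hz => by
  refine Complex.norm_le_of_forall_mem_frontier_norm_le (f := fun z => aeval z P)
    (U := Metric.ball 0 1) Metric.isBounded_ball
    (P.differentiable_aeval (𝕜 := ℂ)).diffContOnCl (fun w hw => h w ?_) ?_
  · simpa [frontier_ball] using hw
  · simpa [closure_ball] using hz

lemma Sz.div {P : ℤ[X]} {S : ℝ} {o : ℕ} (h : Sz (X ^ o * P) S) : Sz P S :=
  maxmod fun z hz => by simpa [hz] using h z hz.le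

lemma Sz.small {P : ℤ[X]} {S : ℝ} {o : ℕ} (h : Sz P S) (d : X ^ o ∣ P) {z : ℂ} (hz : ‖z‖ ≤ 1) :
    ‖aeval z P‖ ≤ S * ‖z‖ ^ o := by
  obtain ⟨Q, rfl⟩ := d
  rw [map_mul, norm_mul, mul_comm, map_pow, aeval_X, norm_pow]
  exact mul_le_mul_of_nonneg_right (h.div z hz) (by positivity)

lemma lowE {E : ℤ[X]} {S τ : ℝ} {T : ℕ} (hT : ¬ X ^ T ∣ E) (h : Sz E S) (t0 : 0 ≤ τ) (t1 : τ ≤ 1)
    (hS : 4 * S * τ ≤ 1) : τ ^ T / 2 ≤ ‖aeval (τ : ℂ) E‖ := by
  have E0 : E ≠ 0 := by rintro rfl; simp at hT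
  obtain ⟨F, e, hF⟩ := exists_eq_pow_rootMultiplicity_mul_and_not_dvd E E0 0
  rw [C_0, sub_zero] at e hF
  generalize rootMultiplicity 0 E = o at e
  subst e
  have oT : o ≤ T := not_lt.mp fun l => hT ((pow_dvd_pow _ l.le).mul_right _)
  have h0 := h.div 0 (by simp)
  have a0 : aeval (0 : ℂ) F = F.coeff 0 := by simp [aeval_def, eval₂_at_zero]
  have h1 : 1 ≤ ‖(F.coeff 0 : ℂ)‖ := by
    rw [Complex.norm_intCast]; exact_mod_cast Int.one_le_abs (mt X_dvd_iff.mpr hF)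
  have h2 : Sz (F - C (F.coeff 0)) (2 * S) := fun z hz => by
    rw [map_sub, aeval_C, eq_intCast, ← a0]
    linarith [norm_sub_le (aeval z F) (aeval (0 : ℂ) F), h.div z hz]
  have tn : ‖(τ : ℂ)‖ = τ := by simp [t0]
  have h3 := h2.small (o := 1) (by simp [X_dvd_iff]) (tn.trans_le t1)
  rw [map_sub, aeval_C, eq_intCast, tn, pow_one, norm_sub_rev] at h3
  have h4 := norm_sub_norm_le (F.coeff 0 : ℂ) (aeval (τ : ℂ) F)
  rw [map_mul, norm_mul, map_pow, aeval_X, norm_pow, tn, div_eq_mul_inv]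
  exact mul_le_mul (pow_le_pow_of_le_one t0 t1 oT) (by linarith) (by norm_num) (by positivity)

lemma evle (Q : ℤ[X]) (z : ℂ) :
    ‖aeval z Q‖ ≤ 2 ^ Q.natDegree * mm Q * max 1 ‖z‖ ^ Q.natDegree := by
  have sp := IsAlgClosed.splits (Q.map (Int.castRingHom ℂ))
  have d := sp.natDegree_eq_card_roots
  rw [natDegree_map_eq_of_injective (RingHom.injective_int _)] at d
  rw [← evm, sp.eval_eq_prod_roots, mm, mahlerMeasure_eq_leadingCoeff_mul_prod_roots, d, norm_mul,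
    mul_right_comm, ← mul_pow, mul_left_comm, ← normHom_apply (Multiset.prod _), map_multiset_prod,
    Multiset.map_map, ← Multiset.prod_replicate, ← Multiset.map_const', ← Multiset.prod_map_mul]
  refine mul_le_mul_of_nonneg_left (Multiset.prod_map_le_prod_map₀ _ _ (by simp) fun a _ => ?_)
    (norm_nonneg _)
  have := norm_sub_le z a
  simp only [Function.comp, normHom_apply]
  nlinarith [le_max_left 1 ‖z‖, le_max_right 1 ‖z‖, le_max_left 1 ‖a‖, le_max_right 1 ‖a‖,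
    mul_nonneg (sub_nonneg.mpr (le_max_left 1 ‖z‖)) (sub_nonneg.mpr (le_max_left 1 ‖a‖))]

lemma res {P Q : ℤ[X]} (hP : Irreducible P) (hd : 0 < P.natDegree) (h : ¬ P ∣ Q) {N : ℕ}
    (hN : P.natDegree ≤ N) {S ε : ℝ} {θ : ℂ} (hS : 1 ≤ S) (hε : 0 ≤ ε)
    (hq : ∀ z : ℂ, ‖aeval z Q‖ ≤ S * max 1 ‖z‖ ^ Q.natDegree * min 1 (‖θ - z‖ + ε))
    (he : 2 * ε * (mm P ^ Q.natDegree * S ^ N) ≤ 1) :
    1 ≤ 2 ^ N * (mm P ^ Q.natDegree * S ^ N) * ‖aeval θ P‖ := by
  have pr : P.IsPrimitive := hP.isPrimitive hd.ne'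
  have iq := (IsPrimitive.Int.irreducible_iff_irreducible_map_cast pr).mp hP
  have co := (dvd_or_isCoprime _ (Q.map (Int.castRingHom ℚ)) iq).resolve_left
    (mt (IsPrimitive.Int.dvd_iff_map_cast_dvd_map_cast P Q pr).mpr h)
  have r0 : resultant P Q ≠ 0 := fun e => by
    refine resultant_ne_zero _ _ co ?_
    rw [natDegree_map_eq_of_injective (RingHom.injective_int _),
      natDegree_map_eq_of_injective (RingHom.injective_int _), resultant_map_map, e, map_zero]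
  have inj := RingHom.injective_int (Int.castRingHom ℂ)
  have sp := IsAlgClosed.splits (P.map (Int.castRingHom ℂ))
  have r1 := resultant_eq_prod_eval _ (Q.map (Int.castRingHom ℂ)) Q.natDegree natDegree_map_le sp
  have d := sp.natDegree_eq_card_roots
  have ev := sp.eval_eq_prod_roots θ
  have mu := mahlerMeasure_eq_leadingCoeff_mul_prod_roots (P.map (Int.castRingHom ℂ))
  rw [natDegree_map_eq_of_injective inj] at r1 d
  rw [resultant_map_map] at r1
  have l1 : 1 ≤ ‖(P.map (Int.castRingHom ℂ)).leadingCoeff‖ := by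
    rw [leadingCoeff_map_of_injective inj, eq_intCast, Complex.norm_intCast]
    exact_mod_cast Int.one_le_abs (leadingCoeff_ne_zero.mpr hP.ne_zero)
  set s := (P.map (Int.castRingHom ℂ)).roots
  set A := mm P ^ Q.natDegree * S ^ N
  have A0 : 0 < A := mul_pos (pow_pos (one_pos.trans_le
    (one_le_mahlerMeasure_of_ne_zero hP.ne_zero)) _) (by positivity)
  have f0 : ∀ z : ℂ, 0 ≤ min 1 (‖θ - z‖ + ε) := fun z => by positivity
  have k : 1 ≤ A * (s.map fun z => min 1 (‖θ - z‖ + ε)).prod := by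
    calc (1 : ℝ) ≤ ‖(Int.castRingHom ℂ) (resultant P Q)‖ := by
          rw [eq_intCast, Complex.norm_intCast]; exact_mod_cast Int.one_le_abs r0
      _ ≤ ‖(P.map (Int.castRingHom ℂ)).leadingCoeff‖ ^ Q.natDegree * (s.map fun z =>
            S * max 1 ‖z‖ ^ Q.natDegree * min 1 (‖θ - z‖ + ε)).prod := by
          rw [r1, norm_mul, norm_pow, ← normHom_apply (Multiset.prod _), map_multiset_prod,
            Multiset.map_map]
          gcongr
          exact Multiset.prod_map_le_prod_map₀ _ _ (by simp) fun a _ => by simpa [evm] using hq a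
      _ = mm P ^ Q.natDegree * S ^ s.card * (s.map fun z => min 1 (‖θ - z‖ + ε)).prod := by
          rw [Multiset.prod_map_mul, Multiset.prod_map_mul, Multiset.prod_map_pow, mm, mu]
          simp; ring
      _ ≤ _ := mul_le_mul_of_nonneg_right (mul_le_mul_of_nonneg_left (pow_le_pow_right₀ hS
          (d ▸ hN)) (pow_nonneg (mahlerMeasure_nonneg _) _)) (Multiset.prod_nonneg (by
            simp only [Multiset.mem_map]; rintro _ ⟨z, -, rfl⟩; exact f0 z))
  have k2 : ∀ z ∈ s, min 1 (‖θ - z‖ + ε) ≤ 2 * ‖θ - z‖ := fun z hz => by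
    obtain ⟨t, ht⟩ := Multiset.exists_cons_of_mem hz
    have := Multiset.prod_map_le_prod_map₀ (s := t) _ (fun _ => (1 : ℝ)) (fun a _ => f0 a)
      fun a _ => min_le_left _ _
    rw [ht, Multiset.map_cons, Multiset.prod_cons] at k
    simp only [Multiset.map_const', Multiset.prod_replicate, one_pow] at this
    have k3 := k.trans (mul_le_mul_of_nonneg_left ((mul_le_of_le_one_right (f0 z) this).trans
      (min_le_right _ _)) A0.le)
    have : ε ≤ ‖θ - z‖ := le_of_mul_le_mul_left (by linarith) A0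
    linarith [min_le_right 1 (‖θ - z‖ + ε)]
  have k4 := Multiset.prod_map_le_prod_map₀ _ _ (fun a _ => f0 a) k2
  rw [Multiset.prod_map_mul, Multiset.map_const', Multiset.prod_replicate] at k4
  have p0 : 0 ≤ (s.map fun z => ‖θ - z‖).prod := Multiset.prod_nonneg (by simp)
  rw [← evm, ev, norm_mul, ← normHom_apply (Multiset.prod _), map_multiset_prod, Multiset.map_map,
    mul_comm (2 ^ N : ℝ), mul_assoc]
  refine k.trans (mul_le_mul_of_nonneg_left (k4.trans (mul_le_mul (pow_le_pow_right₀ one_le_two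
    (d ▸ hN)) (le_mul_of_one_le_left p0 l1) p0 (by positivity))) A0.le)

theorem engine (θ : ℝ) {N : ℕ} (hN : 1 ≤ N) (c : ℕ) (Sp : ℤ[X] → Prop) (Z : ℕ → ℝ) (Z0 : 2 ≤ Z 0)
    (hZ : ∀ r, Z (r + 1) = Z r ^ 2) (h : ∀ r, ∃ Q : ℤ[X], Q ≠ 0 ∧ Q.natDegree ≤ 8 * N ∧
      mm Q ≤ Z r ^ 24 ∧ Z r ^ (Q.natDegree + 1) * mm Q ^ N * ‖aeval (θ : ℂ) Q‖ ≤ 1 ∧
        (1 ≤ Z r ^ c * ‖aeval (θ : ℂ) Q‖ ∨ Sp Q)) :
    ∃ c0 > 0, ∀ P : ℤ[X], Irreducible P → P.natDegree ≤ N → (∀ Q, Sp Q → ¬ P ∣ Q) →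
      c0 ≤ mm P ^ (2 * (c + 32 * N + 25)) * ‖aeval (θ : ℂ) P‖ := by
  classical
  obtain ⟨K, K1, hK⟩ := bd (8 * N) (R := |θ| + 1) (by simp)
  set K' := 2 ^ (8 * N) * K with hK'
  have K2 : K ≤ K' := le_mul_of_one_le_left (by linarith) (one_le_pow₀ one_le_two)
  set κ := 2 ^ N * K' ^ N * 2 with hκ
  have κ0 : 2 ^ N * K' ^ N ≤ κ := le_mul_of_one_le_right (by positivity) one_le_two
  have κ1 : K' ^ N * 2 ≤ κ := by
    rw [hκ, mul_assoc]; exact le_mul_of_one_le_left (by positivity) (one_le_pow₀ one_le_two)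
  have κ2 : K ≤ κ := by linarith [le_self_pow₀ (K1.trans K2) (by omega : N ≠ 0)]
  have Zr : ∀ r : ℕ, (r : ℝ) + 2 ≤ Z r := fun r => by
    induction r with
    | zero => simpa
    | succ r ih => rw [hZ]; push_cast; nlinarith [r.cast_nonneg (α := ℝ)]
  refine ⟨((Z 0 * κ ^ 2) ^ (c + 32 * N + 25))⁻¹, by positivity, fun P hP hd hs => ?_⟩
  have m1 : 1 ≤ mm P := one_le_mahlerMeasure_of_ne_zero hP.ne_zero
  have m2 : 1 ≤ κ * mm P := one_le_mul_of_one_le_of_one_le (K1.trans κ2) m1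
  obtain ⟨r, r1, r2⟩ : ∃ r, κ * mm P ≤ Z r ∧ Z r ≤ Z 0 * κ ^ 2 * mm P ^ 2 := by
    have ex : ∃ r, κ * mm P ≤ Z r := (exists_nat_ge (κ * mm P)).imp fun r hr => by linarith [Zr r]
    refine ⟨Nat.find ex, Nat.find_spec ex, ?_⟩
    rw [mul_assoc (Z 0), ← mul_pow]
    rcases e : Nat.find ex with _ | j
    · exact le_mul_of_one_le_right (by linarith) (one_le_pow₀ m2)
    have := not_le.mp (Nat.find_min ex (by omega : j < Nat.find ex))
    rw [hZ]
    exact (pow_le_pow_left₀ (by linarith [Zr j, j.cast_nonneg (α := ℝ)]) this.le 2).trans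
      (le_mul_of_one_le_left (by positivity) (by linarith))
  have Z1 : 1 ≤ Z r := m2.trans r1
  have Zκ : κ ≤ Z r := (le_mul_of_one_le_right (by linarith) m1).trans r1
  have Zm : mm P ≤ Z r := (le_mul_of_one_le_left (by linarith) (K1.trans κ2)).trans r1
  suffices H : 1 ≤ Z r ^ (c + 32 * N + 25) * ‖aeval (θ : ℂ) P‖ by
    rw [inv_le_iff_one_le_mul₀' (by positivity), pow_mul, ← mul_assoc, ← mul_pow]
    exact H.trans (by gcongr)
  obtain ⟨Q, q0, q1, q2, q3, q4⟩ := h r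
  have mq : 1 ≤ mm Q := one_le_mahlerMeasure_of_ne_zero q0
  by_cases dv : P ∣ Q
  · have q5 := q4.resolve_right fun k => hs Q k dv
    obtain ⟨E, rfl⟩ := dv
    have E0 := right_ne_zero_of_mul q0
    rw [natDegree_mul hP.ne_zero E0] at q1
    have e1 := (hK E (by omega) θ θ (by simp) (by simp)).1
    have e2 : mm E ≤ Z r ^ 24 := le_trans (by
      rw [mm_mul]; exact le_mul_of_one_le_left (mahlerMeasure_nonneg _) m1) q2
    rw [map_mul, norm_mul] at q5
    calc (1 : ℝ) ≤ Z r ^ c * (‖aeval (θ : ℂ) P‖ * (Z r * Z r ^ 24)) := q5.trans (by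
          gcongr; exact e1.trans (mul_le_mul (κ2.trans Zκ) e2 (mahlerMeasure_nonneg _)
            (by linarith)))
      _ = Z r ^ (c + 25) * ‖aeval (θ : ℂ) P‖ := by ring
      _ ≤ _ := by gcongr; omega
  obtain d0 | d0 := P.natDegree.eq_zero_or_pos
  · refine one_le_mul_of_one_le_of_one_le (one_le_pow₀ Z1) ?_
    have := hP.ne_zero
    rw [eq_C_of_natDegree_eq_zero d0] at this ⊢
    rw [aeval_C, eq_intCast, Complex.norm_intCast]
    exact_mod_cast Int.one_le_abs (C_ne_zero.mp this)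
  have S1 : 1 ≤ K' * mm Q := one_le_mul_of_one_le_of_one_le (K1.trans K2) mq
  have := res hP d0 dv hd (θ := θ) S1 (norm_nonneg (aeval (θ : ℂ) Q)) (fun z => ?_) ?_
  · refine this.trans (mul_le_mul_of_nonneg_right ?_ (norm_nonneg _))
    calc _ = 2 ^ N * K' ^ N * mm P ^ Q.natDegree * mm Q ^ N := by ring
      _ ≤ Z r * Z r ^ (8 * N) * (Z r ^ 24) ^ N := by
          gcongr ?_ * ?_ * ?_ ^ N
          exacts [κ0.trans Zκ, (pow_le_pow_left₀ (by linarith) Zm _).trans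
            (pow_le_pow_right₀ Z1 q1)]
      _ = Z r ^ (32 * N + 1) := by ring
      _ ≤ _ := pow_le_pow_right₀ Z1 (by omega)
  · have mx := one_le_pow₀ (n := Q.natDegree) (le_max_left 1 ‖z‖)
    rw [mul_min_of_nonneg _ _ (by positivity), mul_one, le_min_iff]
    have g : ‖aeval z Q‖ ≤ K' * mm Q * max 1 ‖z‖ ^ Q.natDegree := (evle Q z).trans (by
      gcongr
      exact (pow_le_pow_right₀ one_le_two q1).trans (le_mul_of_one_le_right (by positivity) K1))
    refine ⟨g, ?_⟩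
    by_cases c1 : 1 ≤ ‖(θ : ℂ) - z‖
    · exact g.trans (le_mul_of_one_le_right (by positivity) (by linarith [norm_nonneg (aeval (θ : ℂ) Q)]))
    have n2 := norm_sub_norm_le z (θ : ℂ)
    rw [norm_sub_rev, Complex.norm_real, Real.norm_eq_abs] at n2
    have U := (hK Q q1 θ z (by simp) (by linarith)).2
    have n3 := norm_sub_norm_le (aeval z Q) (aeval (θ : ℂ) Q)
    rw [norm_sub_rev] at n3
    calc _ ≤ K' * mm Q * ‖(θ : ℂ) - z‖ + K' * mm Q * ‖aeval (θ : ℂ) Q‖ := by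
          have : K * mm Q * ‖(θ : ℂ) - z‖ ≤ K' * mm Q * ‖(θ : ℂ) - z‖ := by gcongr
          linarith [le_mul_of_one_le_left (norm_nonneg (aeval (θ : ℂ) Q)) S1]
      _ = K' * mm Q * 1 * (‖(θ : ℂ) - z‖ + ‖aeval (θ : ℂ) Q‖) := by ring
      _ ≤ _ := by gcongr
  · refine le_trans ?_ q3
    calc _ = mm P ^ Q.natDegree * (K' ^ N * 2) * mm Q ^ N * ‖aeval (θ : ℂ) Q‖ := by ring
      _ ≤ _ := by rw [pow_succ]; gcongr; exact κ1.trans Zκ

end Pool.Agent.H46.Tn
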