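import Mathlib
set_option autoImplicit false
open Polynomial Finset
namespace Pool.Agent.H46.Tn

def DB (d : ℕ) (B : ℚ[X][X]) : Prop := ∀ j, (B.coeff j).natDegree ≤ d

/-- zero estimate -/
def ZE (D m T : ℕ) (y : ℚ[X]) : Prop :=
  ∀ B : ℚ[X][X], B.natDegree ≤ m → DB D B → X ^ T ∣ B.eval y → B = 0

lemma DB.mono {d e : ℕ} {B : ℚ[X][X]} (h : DB d B) (he : d ≤ e) : DB e B := fun j => (h j).trans he
lemma DB.sum {ι : Type*} {d : ℕ} {s : Finset ι} {f : ι → ℚ[X][X]} (h : ∀ i ∈ s, DB d (f i)) :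
    DB d (∑ i ∈ s, f i) := fun j => by
  rw [finsetSum_coeff]; exact natDegree_sum_le_of_forall_le _ _ fun i hi => h i hi j
lemma DB.add {d : ℕ} {A B : ℚ[X][X]} (h : DB d A) (k : DB d B) : DB d (A + B) := fun j => by
  rw [coeff_add]; exact natDegree_add_le_of_degree_le (h j) (k j)
lemma DB.mul {d e : ℕ} {A B : ℚ[X][X]} (h : DB d A) (k : DB e B) : DB (d + e) (A * B) := fun j => by
  rw [coeff_mul]
  exact natDegree_sum_le_of_forall_le _ _ fun i _ => natDegree_mul_le_of_le (h _) (k _)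
lemma DB_C {d : ℕ} {p : ℚ[X]} (h : p.natDegree ≤ d) : DB d (C p) := fun j => by
  rw [coeff_C]; split_ifs <;> simp [h]
lemma DB_map (p : ℚ[X]) : DB 0 (p.map C) := fun j => by simp
lemma DB_X (k : ℕ) : DB 0 (X ^ k) := by simpa using DB_map (X ^ k)
lemma DB.pow {d : ℕ} {A : ℚ[X][X]} (h : DB d A) (k : ℕ) : DB (k * d) (A ^ k) := by
  induction k with
  | zero => simpa using DB_X 0
  | succ k ih => rw [pow_succ, add_mul, one_mul]; exact ih.mul h

lemma ZE.mono {D m T T' : ℕ} {y : ℚ[X]} (h : ZE D m T y) (hT : T ≤ T') : ZE D m T' y :=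
  fun B a b c => h B a b ((pow_dvd_pow _ hT).trans c)

lemma ZE.shift {d l e T : ℕ} {Z G u : ℚ[X]} (h : ZE (d + l * e) l T Z) (hG : G.natDegree ≤ e)
    (hu : u.natDegree ≤ e) (u0 : u ≠ 0) : ZE d l T (G + u * Z) := fun B a b c => by
  have n1 : (C u * X + C G : ℚ[X][X]).natDegree = 1 := natDegree_linear u0
  have := h (B.comp (C u * X + C G)) (by rwa [natDegree_comp, n1, mul_one]) (by
    rw [comp, eval₂_eq_sum_range' C (Nat.lt_succ_of_le a)]
    refine DB.sum fun j hj => ((DB_C (b j)).mul (DB.pow (((DB_C hu).mul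
      (by simpa using DB_X 1)).add (DB_C hG)) j)).mono ?_
    gcongr; exacts [Nat.lt_succ_iff.mp (mem_range.mp hj), le_rfl]) (by simpa [eval_comp, add_comm])
  refine (comp_eq_zero_iff.mp this).resolve_right fun k => ?_
  rw [k.2, natDegree_C] at n1; omega

lemma ZE_zero {d T : ℕ} (h : d < T) (y : ℚ[X]) : ZE d 0 T y := fun B a b c => by
  have := b 0
  rw [eq_C_of_natDegree_eq_zero (Nat.le_zero.mp a)] at c ⊢
  rw [eval_C] at c
  rw [eq_zero_of_dvd_of_natDegree_lt c (by simp; omega), C_0]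

noncomputable def bp {D m : ℕ} (a : Fin (D + 1) × Fin (m + 1) → ℚ) : ℚ[X][X] :=
  ∑ p, monomial p.2 (monomial p.1 (a p))

lemma bp_coeff {D m : ℕ} (a : Fin (D + 1) × Fin (m + 1) → ℚ) (i j : ℕ) : ((bp a).coeff j).coeff i =
    if h : i < D + 1 ∧ j < m + 1 then a (⟨i, h.1⟩, ⟨j, h.2⟩) else 0 := by
  simp only [bp, finsetSum_coeff, coeff_monomial, apply_ite (coeff · i), coeff_zero]
  split_ifs with h
  · rw [sum_eq_single (⟨i, h.1⟩, ⟨j, h.2⟩) (fun p _ k => ?_) (by simp)]
    · simp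
    · split_ifs with h1 h2 <;> first | rfl | exact absurd (Prod.ext (Fin.ext h2) (Fin.ext h1)) k
  · refine sum_eq_zero fun p _ => ?_
    split_ifs with h1 h2 <;> first | rfl | exact absurd ⟨h2 ▸ p.1.2, h1 ▸ p.2.2⟩ h

lemma bp_eval {D m : ℕ} (a : Fin (D + 1) × Fin (m + 1) → ℚ) (y : ℚ[X]) :
    (bp a).eval y = ∑ p, C (a p) * X ^ (p.1 : ℕ) * y ^ (p.2 : ℕ) := by
  simp [bp, eval_finsetSum, C_mul_X_pow_eq_monomial]

lemma bp_deg {D m : ℕ} (a : Fin (D + 1) × Fin (m + 1) → ℚ) : (bp a).natDegree ≤ m ∧ DB D (bp a) :=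
  ⟨natDegree_le_iff_coeff_eq_zero.mpr fun j hj => Polynomial.ext fun i => by
    rw [bp_coeff, dif_neg (by omega), coeff_zero], fun j =>
    natDegree_le_iff_coeff_eq_zero.mpr fun i hi => by rw [bp_coeff, dif_neg (by omega)]⟩

lemma ZE.vec {D m T : ℕ} {y : ℚ[X]} (h : ZE D m T y) (a : Fin (D + 1) × Fin (m + 1) → ℚ)
    (ha : X ^ T ∣ ∑ p, C (a p) * X ^ (p.1 : ℕ) * y ^ (p.2 : ℕ)) : a = 0 := by
  have := h _ (bp_deg a).1 (bp_deg a).2 (bp_eval a y ▸ ha)
  funext p
  have k := bp_coeff a p.1 p.2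
  rw [this, dif_pos ⟨p.1.2, p.2.2⟩] at k
  simpa using k.symm

lemma fam (D m T : ℕ) (h u : ℚ[X]) :
    (∃ s : Finset ℚ, s.card ≤ (D + 1) * (m + 1) * (2 * m) ∧ ∀ v ∉ s, ZE D m T (h + C v * u)) ∨
    ∃ a : Fin (D + 1) × Fin (m + 1) → ℚ[X], ∀ v : ℚ, (∃ p, eval v (a p) ≠ 0) ∧
      X ^ T ∣ ∑ p, C (eval v (a p)) * X ^ (p.1 : ℕ) * (h + C v * u) ^ (p.2 : ℕ) := by
  classical
  let M : Matrix (Fin T) (Fin (D + 1) × Fin (m + 1)) ℚ[X] := fun k p =>
    (X ^ (p.1 : ℕ) * (h.map C + C X * u.map C) ^ (p.2 : ℕ) : ℚ[X][X]).coeff k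
  have hM : ∀ k p, (M k p).natDegree ≤ m := fun k p =>
    (((DB_X _).mul (DB.pow (((DB_map h).mono zero_le_one).add ((DB_C natDegree_X_le).mul
      (DB_map u))) _)).mono (by simpa using Nat.lt_succ_iff.mp p.2.2)) _
  have key : ∀ (v : ℚ) (a : _ → ℚ), (M.map (evalRingHom v)).mulVec a = 0 ↔
      X ^ T ∣ ∑ p, C (a p) * X ^ (p.1 : ℕ) * (h + C v * u) ^ (p.2 : ℕ) := fun v a => by
    have e : ∀ k : Fin T, (M.map (evalRingHom v)).mulVec a k =
        (∑ p, C (a p) * X ^ (p.1 : ℕ) * (h + C v * u) ^ (p.2 : ℕ)).coeff k := fun k => by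
      simp only [Matrix.mulVec, dotProduct, Matrix.map_apply, finsetSum_coeff, mul_assoc,
        coeff_C_mul, M, ← coeff_map]
      refine sum_congr rfl fun p _ => ?_
      have : (evalRingHom v).comp C = RingHom.id ℚ := by ext; simp
      rw [mul_comm]
      simp [Polynomial.map_map, this]
    rw [X_pow_dvd_iff, funext_iff]
    exact ⟨fun H k hk => (e ⟨k, hk⟩).symm.trans (H _), fun H k => (e k).trans (H _ k.2)⟩
  by_cases h0 : (M.transpose * M).det = 0
  · right
    obtain ⟨a, a0, ha⟩ := Matrix.exists_mulVec_eq_zero_iff.mpr h0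
    obtain ⟨b, hb, b1⟩ := Finset.extract_gcd a (univ_nonempty (α := Fin (D + 1) × Fin (m + 1)))
    have e : a = univ.gcd a • b := funext fun p => hb p (mem_univ _)
    have g0 : univ.gcd a ≠ 0 := fun k => a0 (by rw [e, k, zero_smul])
    rw [e, Matrix.mulVec_smul, smul_eq_zero_iff_right g0] at ha
    refine ⟨b, fun v => ⟨by_contra fun k => ?_, (key v _).mp ?_⟩⟩
    · push Not at k
      exact not_isUnit_X_sub_C v (isUnit_of_dvd_one
        (b1 ▸ Finset.dvd_gcd fun p _ => dvd_iff_isRoot.mpr (k p)))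
    have k : ((M.map (evalRingHom v)).transpose * M.map (evalRingHom v)).mulVec
        (fun p => eval v (b p)) = 0 := funext fun p => by
      rw [← Matrix.transpose_map, ← Matrix.map_mul]
      exact (RingHom.map_mulVec (evalRingHom v) _ b p).symm.trans (by rw [ha]; simp)
    rw [← dotProduct_self_eq_zero, Matrix.dotProduct_mulVec, Matrix.vecMul_mulVec,
      ← Matrix.dotProduct_mulVec, k, dotProduct_zero]
  left
  refine ⟨(M.transpose * M).det.roots.toFinset, (Multiset.toFinset_card_le _).trans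
    ((card_roots' _).trans ?_), fun v hv B a b c => ?_⟩
  · rw [Matrix.det_apply]
    refine natDegree_sum_le_of_forall_le _ _ fun σ _ => (natDegree_smul_le _ _).trans
      ((natDegree_prod_le _ _).trans ((sum_le_card_nsmul _ _ (2 * m) fun p _ => ?_).trans
        (by simp)))
    rw [Matrix.mul_apply, two_mul]
    exact natDegree_sum_le_of_forall_le _ _ fun k _ => natDegree_mul_le_of_le (hM _ _) (hM _ _)
  have e : B = bp fun p : Fin (D + 1) × Fin (m + 1) => (B.coeff p.2).coeff p.1 := by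
    ext j i
    rw [bp_coeff]
    split_ifs with k
    · rfl
    by_cases k2 : j < m + 1
    · exact coeff_eq_zero_of_natDegree_lt (by have := b j; omega)
    · rw [coeff_eq_zero_of_natDegree_lt (by omega : B.natDegree < j), coeff_zero]
  rw [e, bp_eval, ← key] at c
  have d : ((M.map (evalRingHom v)).transpose * M.map (evalRingHom v)).det ≠ 0 := by
    rw [← Matrix.transpose_map, ← Matrix.map_mul, ← RingHom.mapMatrix_apply, ← RingHom.map_det]
    simpa [h0] using hv
  have z := Matrix.eq_zero_of_mulVec_eq_zero d (by rw [← Matrix.mulVec_mulVec, c,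
    Matrix.mulVec_zero])
  rw [e, z]
  simp [bp]

lemma ZE.gen {D m T : ℕ} {h u : ℚ[X]} {v₀ : ℚ} (H : ZE D m T (h + C v₀ * u)) :
    ∃ s : Finset ℚ, s.card ≤ (D + 1) * (m + 1) * (2 * m) ∧ ∀ v ∉ s, ZE D m T (h + C v * u) :=
  (fam D m T h u).resolve_right fun ⟨_, ha⟩ =>
    (ha v₀).1.elim fun p hp => hp (congrFun (H.vec _ (ha v₀).2) p)

lemma mult {D l N : ℕ} {B : ℚ[X][X]} (B0 : B ≠ 0) (h : DB D B)
    (d : (X - C (X ^ N)) ^ l ∣ B) : l * N ≤ D := by
  obtain ⟨q, hq⟩ := (Set.infinite_range_of_injective (C_injective (R := ℚ))).exists_notMem_finset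
    B.roots.toFinset
  obtain ⟨⟨q, rfl⟩, hq⟩ := hq
  have e0 : B.eval (C q) ≠ 0 := by simpa [B0] using hq
  have := natDegree_le_of_dvd (eval_dvd (x := C q) d) e0
  rw [eval_pow, eval_sub, eval_X, eval_C, natDegree_pow, ← neg_sub, natDegree_neg,
    natDegree_X_pow_sub_C] at this
  refine this.trans ?_
  rw [eval_eq_sum_range]
  exact natDegree_sum_le_of_forall_le _ _ fun j _ => natDegree_mul_le.trans (by simpa using h j)

lemma interp {T : ℕ} {E : ℚ[X][X]} (h : ∀ v, X ^ T ∣ E.eval (C v)) (κ : ℕ) : X ^ T ∣ E.coeff κ := by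
  refine X_pow_dvd_iff.mpr fun k hk => ?_
  have : ∑ j ∈ range (E.natDegree + 1), monomial j ((E.coeff j).coeff k) = 0 :=
    Polynomial.funext fun v => by
      have := X_pow_dvd_iff.mp (h v) k hk
      rw [eval_eq_sum_range] at this
      simpa only [eval_finsetSum, ← C_pow, eval_monomial, eval_zero, finsetSum_coeff,
        coeff_mul_C] using this
  by_cases c : κ < E.natDegree + 1
  · simpa [coeff_monomial, c] using congrArg (coeff · κ) this
  · rw [coeff_eq_zero_of_natDegree_lt (by omega : E.natDegree < κ), coeff_zero]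

lemma lemG {D m T N : ℕ} (hN : 1 ≤ N) {h : ℚ[X]} (H : ZE (D + m * N) (min m (D / N)) T h) :
    ∃ v, ZE D m T (h + C v * X ^ N) := by
  obtain ⟨s, -, hs⟩ | ⟨a, ha⟩ := fam D m T (X ^ N) h
  · obtain ⟨v, hv⟩ := Infinite.exists_notMem_finset (insert 0 s)
    rw [mem_insert, not_or] at hv
    have := ZE.shift (d := D) (e := 0) (G := 0) (u := C v⁻¹) (hs v hv.2) (by simp) (by simp)
      (by simpa using hv.1)
    exact ⟨v⁻¹, by rwa [zero_add, mul_add, ← mul_assoc, ← C_mul, inv_mul_cancel₀ hv.1, C_1, one_mul,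
      add_comm] at this⟩
  exfalso
  set c : ℕ → ℚ[X][X] := fun l => X ^ l * ∑ p, (a p).map C *
    C (X ^ (p.1 : ℕ) * ((X ^ N) ^ (p.2 - l) * ((p.2 : ℕ).choose l : ℚ[X]))) with hc
  have dv := interp (T := T) (E := ∑ l ∈ range (m + 1), c l * C (h ^ l)) fun v => by
    convert (ha v).2 using 1
    simp only [hc, mul_sum, sum_mul, eval_finsetSum]
    rw [sum_comm]
    refine sum_congr rfl fun p _ => ?_
    rw [add_comm (X ^ N), add_pow, mul_sum, sum_subset (range_subset_range.mpr p.2.2) fun l _ hl => by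
      rw [Nat.choose_eq_zero_of_lt (by simpa using hl)]; simp]
    refine sum_congr rfl fun l _ => ?_
    simp only [eval_mul, eval_pow, eval_X, eval_C, eval_map, eval₂_hom]
    ring
  set B := bp fun p => eval 0 (a p)
  have B0 : B ≠ 0 := fun k => (ha 0).1.elim fun p hp => hp (by
    have := bp_coeff (fun p => eval 0 (a p)) p.1 p.2
    rw [dif_pos ⟨p.1.2, p.2.2⟩] at this
    rw [← this, show bp _ = 0 from k]; simp)
  set l := B.rootMultiplicity (X ^ N) with hl
  have d1 := pow_rootMultiplicity_dvd B (X ^ N)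
  have l1 : l ≤ D / N := (Nat.le_div_iff_mul_le hN).mpr (mult B0 (bp_deg _).2 d1)
  have l2 : l ≤ m := by
    simpa only [natDegree_pow, natDegree_X_sub_C, mul_one] using
      (natDegree_le_of_dvd d1 B0).trans (bp_deg _).1
  have c0 : (c l).coeff l ≠ 0 := by
    have : (B.comp (X + C (X ^ N))).coeff l ≠ 0 := by
      rw [hl, rootMultiplicity_eq_natTrailingDegree]
      exact trailingCoeff_nonzero_iff_nonzero.mpr (by
        rw [← taylor_apply]; exact mt (taylor_eq_zero _ _).mp B0)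
    convert this using 1
    rw [hc, coeff_X_pow_mul', if_pos le_rfl, Nat.sub_self]
    simp only [B, bp, Polynomial.sum_comp, monomial_comp, finsetSum_coeff, coeff_C_mul,
      coeff_X_add_C_pow, coeff_mul_C, coeff_map, coeff_zero_eq_eval_zero (a _)]
    simp only [← C_mul_X_pow_eq_monomial, mul_assoc]
  have cf : ∀ j, (∑ i ∈ range (l + 1), monomial i ((c i).coeff l)).coeff j =
      if j < l + 1 then (c j).coeff l else 0 := fun j => by simp [coeff_monomial]
  refine c0 (((cf l).trans (if_pos l.lt_succ_self)).symm.trans ?_)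
  refine (congrArg (coeff · l) (H _ (natDegree_sum_le_of_forall_le _ _ fun i hi =>
    (natDegree_monomial_le _).trans (by simp at hi ⊢; omega)) (fun j => ?_) ?_)).trans (coeff_zero _)
  · rw [cf]
    split_ifs
    swap; · simp
    refine (((DB_X j).mul (DB.sum fun p _ => (DB_map _).mul (DB_C (d := D + m * N) ?_))).mono
      (by simp)) l
    refine natDegree_mul_le_of_le (by simpa using Nat.lt_succ_iff.mp p.1.2)
      (natDegree_mul_le.trans ?_)
    rw [natDegree_natCast, natDegree_pow, natDegree_X_pow, add_zero]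
    gcongr; omega
  · convert dv l using 1
    simp only [eval_finsetSum, eval_monomial, finsetSum_coeff, coeff_mul_C]
    refine sum_subset (range_subset_range.mpr (by omega)) fun i _ hi => ?_
    rw [hc, coeff_X_pow_mul', if_neg (by simpa using hi), zero_mul]

lemma hajos (n : ℕ) : ∀ p : ℚ[X], p.support.card ≤ n → (X - C 1) ^ n ∣ p → p = 0 := by
  induction n with
  | zero => simp
  | succ n ih =>
  intro p hp d
  by_contra p0
  obtain ⟨k, hk⟩ := support_nonempty.mpr p0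
  have c : ∀ j, (X * derivative p - C (k : ℚ) * p).coeff j = (j - k) * p.coeff j := fun j => by
    rcases j with _ | j <;> simp [coeff_X_mul, coeff_derivative]; ring
  have := ih (X * derivative p - C (k : ℚ) * p) (by
    refine (card_le_card (t := p.support.erase k) fun j hj => ?_).trans (by
      rw [card_erase_of_mem hk]; omega)
    rw [mem_support_iff, c, mul_ne_zero_iff, sub_ne_zero] at hj
    simpa using hj) (dvd_sub ((pow_sub_one_dvd_derivative_of_pow_dvd d).mul_left _)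
      (((pow_dvd_pow _ n.le_succ).trans d).mul_left _))
  have e : p = monomial k (p.coeff k) := by
    ext j
    have h := c j
    rw [this, coeff_zero, eq_comm, mul_eq_zero, sub_eq_zero, Nat.cast_inj] at h
    rw [coeff_monomial]
    split_ifs with i
    exacts [by rw [i], h.resolve_left (Ne.symm i)]
  have r := dvd_iff_isRoot.mp ((dvd_pow_self _ n.succ_ne_zero).trans d)
  rw [e] at r
  simp [mem_support_iff.mp hk] at r

lemma nd_mul {a b : ℕ} {p q : ℚ[X]} (hp : ¬ X ^ (a + 1) ∣ p) (hq : ¬ X ^ b ∣ q) :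
    ¬ X ^ (a + b) ∣ p * q := by
  have p0 : p ≠ 0 := by rintro rfl; simp at hp
  have q0 : q ≠ 0 := by rintro rfl; simp at hq
  have e : ∀ {r : ℚ[X]} {k}, r ≠ 0 → (X ^ k ∣ r ↔ k ≤ rootMultiplicity 0 r) := fun h => by
    simp [le_rootMultiplicity_iff h]
  rw [e p0] at hp
  rw [e q0] at hq
  rw [e (mul_ne_zero p0 q0), rootMultiplicity_mul (mul_ne_zero p0 q0)]
  omega

section alg
variable {n : ℕ} {c : ℚ} {Z : ℚ[X]}

noncomputable def MM (n : ℕ) (c : ℚ) : ℚ[X][X] := X ^ n - C (1 + C c * X)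
noncomputable def ka (n : ℕ) (c : ℚ) : ℚ[X][X] →+* ℚ[X] :=
  eval₂RingHom (compRingHom (C c⁻¹ * (X ^ n - 1))) X

lemma cong (hc : c ≠ 0) (B : ℚ[X][X]) : MM n c ∣ B - (ka n c B).map C := by
  rw [← Ideal.mem_span_singleton, ← Ideal.Quotient.eq]
  refine RingHom.congr_fun (f := Ideal.Quotient.mk _) (g := (Ideal.Quotient.mk _).comp
    ((mapRingHom C).comp (ka n c))) (Polynomial.ringHom_ext' (Polynomial.ringHom_ext
      (fun a => ?_) ?_) ?_) B
  · simp [ka]
  · simp only [RingHom.comp_apply, Ideal.Quotient.eq, Ideal.mem_span_singleton]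
    refine ⟨-C (C c⁻¹), ?_⟩
    have : (C (C c) : ℚ[X][X]) * C (C c⁻¹) = 1 := by rw [← C_mul, ← C_mul, mul_inv_cancel₀ hc]; rfl
    simp [ka, MM]
    linear_combination -(C X) * this
  · simp [ka]

lemma nm (hc : c ≠ 0) (hZ : X ∣ Z - 1) (h2 : X ^ 2 ∣ (MM n c).eval Z) {o : ℕ}
    (ho : X ^ o ∣ (MM n c).eval Z) {B : ℚ[X][X]} (hB : ¬ (X - C 1) ^ o ∣ ka n c B) :
    ¬ X ^ o ∣ B.eval Z := fun h => by
  have k0 : ka n c B ≠ 0 := by intro k; simp [k] at hB
  have d := ho.trans (eval_dvd (x := Z) (cong hc B))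
  rw [eval_sub, dvd_sub_right h] at d
  obtain ⟨V, e, hV⟩ := exists_eq_pow_rootMultiplicity_mul_and_not_dvd _ k0 1
  rw [← le_rootMultiplicity_iff k0, not_le] at hB
  generalize rootMultiplicity 1 (ka n c B) = μ at e hB
  obtain ⟨U, hU⟩ := hZ
  rw [e, eval_map, ← comp, mul_comp, pow_comp, sub_comp, X_comp, C_comp, C_1, hU, mul_pow,
    mul_assoc] at d
  have := (pow_dvd_pow _ hB).trans d
  rw [pow_succ, mul_dvd_mul_iff_left (by simp)] at this
  rcases prime_X.dvd_or_dvd this with k | k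
  · have k2 : X ^ 2 ∣ Z ^ n - 1 ^ n := (show X ^ 2 ∣ Z - 1 by
      rw [hU, sq]; exact mul_dvd_mul_left _ (prime_X.dvd_of_dvd_pow k)).trans
        (sub_dvd_pow_sub_pow _ _ _)
    have := X_pow_dvd_iff.mp (dvd_sub k2 h2) 1 one_lt_two
    simp [MM, hc] at this
  · rw [X_dvd_iff, coeff_zero_eq_eval_zero, eval_comp, sub_eq_iff_eq_add.mp hU] at k
    exact hV (dvd_iff_isRoot.mpr (by simpa using k))

lemma MM_deg (hn : n ≠ 0) : (MM n c).Monic ∧ (MM n c).natDegree = n :=
  ⟨monic_X_pow_sub_C _ hn, natDegree_X_pow_sub_C⟩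

lemma ka_eq {l : ℕ} {B : ℚ[X][X]} (h : B.natDegree ≤ l) : ka n c B =
    ∑ j ∈ range (l + 1), expand ℚ n ((B.coeff j).comp (C c⁻¹ * (X - 1))) * X ^ j := by
  rw [ka, coe_eval₂RingHom, eval₂_eq_sum_range' _ (Nat.lt_succ_of_le h)]
  simp [expand_eq_comp_X_pow, comp_assoc]

lemma dg1 {d : ℕ} {p : ℚ[X]} (h : p.natDegree ≤ d) : (p.comp (C c⁻¹ * (X - 1))).natDegree ≤ d :=
  natDegree_comp_le.trans ((mul_le_mul h (by compute_degree) (by simp) (by simp)).trans_eq
    (mul_one _))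

lemma ze1 (hc : c ≠ 0) (hZ : X ∣ Z - 1) (h2 : X ^ 2 ∣ (MM n c).eval Z) {d l : ℕ} (hl : l < n)
    (ho : X ^ ((d + 1) * (l + 1)) ∣ (MM n c).eval Z) : ZE d l ((d + 1) * (l + 1)) Z :=
  fun B a b h => by_contra fun B0 => nm hc hZ h2 ho (fun k => B0 (by
    have := cong (n := n) hc B
    rw [hajos _ _ ?_ k, Polynomial.map_zero, sub_zero] at this
    · exact eq_zero_of_dvd_of_natDegree_lt this (by rw [(MM_deg (by omega)).2]; omega)
    refine (card_le_card (t := (range (d + 1) ×ˢ range (l + 1)).image fun p => n * p.1 + p.2)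
      fun i hi => ?_).trans (card_image_le.trans (by simp))
    rw [mem_support_iff, ka_eq a, finsetSum_coeff] at hi
    obtain ⟨j, hj, e⟩ := exists_ne_zero_of_sum_ne_zero hi
    rw [coeff_mul_X_pow', coeff_expand (by omega)] at e
    split_ifs at e with e1 e2 <;> try exact absurd rfl e
    exact mem_image.mpr ⟨((i - j) / n, j), mem_product.mpr ⟨mem_range.mpr (Nat.lt_succ_of_le
      ((le_natDegree_of_ne_zero e).trans (dg1 (b j)))), hj⟩, by
        rw [Nat.mul_div_cancel' e2]; omega⟩)) h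

lemma DB.div (hc : c ≠ 0) {d : ℕ} {B : ℚ[X][X]} (h : DB d (MM n c * B)) : DB d B := by
  obtain rfl | B0 := eq_or_ne B 0
  · simpa using h
  obtain ⟨j, hj, mx⟩ := B.support.exists_max_image (fun j => (B.coeff j).natDegree)
    (support_nonempty.mpr B0)
  have mx' : ∀ i, (B.coeff i).natDegree ≤ (B.coeff j).natDegree := fun i => by
    by_cases k : i ∈ B.support
    exacts [mx i k, by simp [notMem_support_iff.mp k]]
  have u : (1 + C c * X).natDegree = 1 := by rw [add_comm, ← C_1]; exact natDegree_linear hc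
  have e : ((1 + C c * X) * B.coeff j).natDegree = (B.coeff j).natDegree + 1 := by
    rw [natDegree_mul (by intro k; simp [k] at u) (mem_support_iff.mp hj), u, add_comm]
  have := h j
  rw [MM, sub_mul, coeff_sub, coeff_C_mul, natDegree_sub_eq_right_of_natDegree_lt (by
    rw [e, coeff_X_pow_mul']
    split_ifs
    exacts [Nat.lt_succ_of_le (mx' _), by simp]), e] at this
  exact fun i => (mx' i).trans (by omega)

lemma ze2 (hc : c ≠ 0) (hn : n ≠ 0) (hZ : X ∣ Z - 1) {d l o K : ℕ} (h1 : n * d + l < o) (h2 : 2 ≤ o)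
    (ho : X ^ o ∣ (MM n c).eval Z) (hK : ¬ X ^ (K + 1) ∣ (MM n c).eval Z) :
    ZE d l (l / n * K + o) Z := by
  induction l using Nat.strong_induction_on with
  | _ l ih =>
  intro B a b h
  by_contra B0
  by_cases dv : MM n c ∣ B
  · obtain ⟨B, rfl⟩ := dv
    have B1 := right_ne_zero_of_mul B0
    rw [(MM_deg hn).1.natDegree_mul' B1, (MM_deg hn).2] at a
    refine nd_mul hK (fun k => B1 (ih (l - n) (by omega) (by omega) B (by omega) (b.div hc) k)) ?_
    rwa [eval_mul, Nat.div_eq_sub_div (by omega) (by omega), add_mul, one_mul, add_right_comm,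
      add_comm] at h
  refine nm hc hZ ((pow_dvd_pow _ h2).trans ho) ho (fun k => dv ?_)
    ((pow_dvd_pow _ (by omega)).trans h)
  have := cong (n := n) hc B
  rwa [eq_zero_of_dvd_of_natDegree_lt k ?_, Polynomial.map_zero, sub_zero] at this
  rw [natDegree_pow, natDegree_X_sub_C, mul_one, ka_eq a]
  refine lt_of_le_of_lt (natDegree_sum_le_of_forall_le _ _ fun j hj =>
    natDegree_mul_le_of_le ?_ ?_) h1
  · rw [natDegree_expand, mul_comm]; gcongr; exact dg1 (b j)
  · simpa using Nat.lt_succ_iff.mp (mem_range.mp hj)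

end alg

end Pool.Agent.H46.Tn
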