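import Pool.Agent.H46.Tn.A
import Pool.Agent.H46.Tn.B
set_option autoImplicit false
open Polynomial Finset
namespace Pool.Agent.H46.Tn
open Wx

theorem greedy {ι : Type*} (good : ι → (ℕ → ℕ) → Prop) (a e δ : ι → ℕ) (G : ℕ → ℕ)
    (act : ℕ → Finset ι) (hact : ∀ c i, a c ≤ i → i < e c → c ∈ act i)
    (hG : ∀ i, ∑ c ∈ act i, δ c < G i) (W : ∀ c, ∃ g, good c g)
    (L : ∀ c g g', (∀ j, a c ≤ j → j < e c → g j = g' j) → good c g → good c g')
    (S : ∀ c g i, good c g → ∃ s : Finset ℕ, s.card ≤ δ c ∧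
      ∀ v ∉ s, good c (Function.update g i v)) :
    ∃ g : ℕ → ℕ, (∀ i, 1 ≤ g i ∧ g i ≤ G i) ∧ ∀ c, good c g := by
  classical
  let Inv : ℕ → (ℕ → ℕ) → Prop := fun i g => ∀ c, ∃ g', (∀ j < i, g' j = g j) ∧ good c g'
  have step : ∀ i g, ∃ v, (1 ≤ v ∧ v ≤ G i) ∧ (Inv i g → Inv (i + 1) (Function.update g i v)) := by
    intro i g
    by_cases h : Inv i g
    swap; · exact ⟨1, ⟨le_rfl, (Nat.zero_le _).trans_lt (hG i)⟩, fun k => absurd k h⟩
    choose w w1 w2 using h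
    choose s s1 s2 using fun c => S c _ i (w2 c)
    obtain ⟨v, v1, v2⟩ := exists_mem_notMem_of_card_lt_card (s := (act i).biUnion s)
      (t := Icc 1 (G i)) (card_biUnion_le.trans_lt ((sum_le_sum fun c _ => s1 c).trans_lt
        (by simpa using hG i)))
    refine ⟨v, mem_Icc.mp v1, fun _ c => ⟨Function.update (w c) i v, fun j hj => ?_, ?_⟩⟩
    · by_cases k : j = i
      · simp [k]
      · simp [k, w1 c j (by omega)]
    by_cases k : c ∈ act i
    · exact s2 c v fun m => v2 (mem_biUnion.mpr ⟨c, k, m⟩)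
    · refine L c _ _ (fun j j1 j2 => (Function.update_of_ne ?_ _ _).symm) (w2 c)
      rintro rfl; exact k (hact c j j1 j2)
  choose f f1 f2 using step
  let s : ℕ → ℕ → ℕ := fun i => i.rec (fun _ => 0) fun i g => Function.update g i (f i g)
  have hs : ∀ i, Inv i (s i) := fun i => by
    induction i with
    | zero => exact fun c => (W c).imp fun g h => ⟨by simp, h⟩
    | succ i ih => exact f2 i _ ih
  have st : ∀ i, ∀ j < i, s i j = f j (s j) := fun i => by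
    induction i with
    | zero => simp
    | succ i ih =>
      intro j hj
      show Function.update (s i) i (f i (s i)) j = _
      by_cases k : j = i
      · simp [k]
      · rw [Function.update_of_ne k, ih j (by omega)]
  refine ⟨fun i => f i (s i), fun i => f1 _ _, fun c => ?_⟩
  obtain ⟨g, g1, g2⟩ := hs (e c) c
  exact L c _ _ (fun j _ hj => (g1 j hj).trans (st _ j hj)) g2

lemma series (n E : ℕ) (hE : 1 ≤ E) : ∃ a : ℤ[X], X ∣ a - 1 ∧
    X ^ E ∣ a ^ n - (1 + C (5 * (n : ℤ) ^ 2) * X) ∧ a.natDegree ≤ E ∧ a.eval 1 = 0 := by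
  obtain ⟨k, hk⟩ := powAddExpansion (1 : ℤ[X]) ((n : ℤ[X]) * X) n
  have : ∀ E, ∃ z : ℤ[X], X ∣ z ∧ X ^ (E + 1) ∣ z + aeval z k * z ^ 2 - 5 * X := fun E => by
    induction E with
    | zero => exact ⟨0, by simp, by simp⟩
    | succ E ih =>
      obtain ⟨z, z1, z2⟩ := ih
      set r := z + aeval z k * z ^ 2 - 5 * X with hr
      have z3 : X ∣ z - r := dvd_sub z1 ((dvd_pow_self _ E.succ_ne_zero).trans z2)
      obtain ⟨t, ht⟩ : z - r - z ∣ aeval (z - r) k - aeval z k := by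
        rw [aeval_def, aeval_def, eval₂_eq_eval_map, eval₂_eq_eval_map]; exact sub_dvd_eval_sub ..
      refine ⟨z - r, z3, ?_⟩
      rw [show z - r + aeval (z - r) k * (z - r) ^ 2 - 5 * X =
        r * (-(aeval (z - r) k * (z - r + z)) - t * z * z) by
          linear_combination z ^ 2 * ht - hr, pow_succ]
      exact mul_dvd_mul z2 (dvd_sub ((dvd_add z3 z1).mul_left _).neg_right (z1.mul_left _))
  obtain ⟨z, z1, z2⟩ := this E
  have e := congrArg (aeval z) hk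
  simp only [map_pow, map_add, map_mul, map_one, map_natCast, aeval_X, one_pow] at e
  have mo : (X ^ E : ℤ[X]).Monic := monic_X_pow E
  set a := (1 + (n : ℤ[X]) * z) %ₘ X ^ E with ha
  have d : X ^ E ∣ a - C (a.eval 1) * X ^ E - (1 + (n : ℤ[X]) * z) :=
    ⟨-C (a.eval 1) - (1 + (n : ℤ[X]) * z) /ₘ X ^ E, by
      linear_combination modByMonic_add_div (1 + (n : ℤ[X]) * z) (X ^ E)⟩
  refine ⟨a - C (a.eval 1) * X ^ E, ?_, ?_, (natDegree_sub_le _ _).trans (max_le ?_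
    (natDegree_C_mul_X_pow_le _ _)), by simp⟩
  · convert dvd_add ((dvd_pow_self _ (by omega)).trans d) (z1.mul_left n) using 1; ring
  · convert dvd_add (d.trans (sub_dvd_pow_sub_pow _ _ n))
      (((pow_dvd_pow _ E.le_succ).trans z2).mul_left (n ^ 2)) using 1
    rw [e]; simp only [map_mul, map_pow, map_natCast, map_ofNat]; ring
  · simpa using natDegree_modByMonic_le (1 + (n : ℤ[X]) * z) mo

lemma int3 {F : ℤ[X]} {N b : ℕ} (hF : F.natDegree ≤ N) (b3 : b % 3 = 1) (h : 3 ∣ F.eval 1) :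
    ∃ p : ℤ, (p : ℝ) = b ^ N * aeval (b : ℝ)⁻¹ F ∧ 3 ∣ p := by
  have b0 : (b : ℝ) ≠ 0 := by rintro k; simp [Nat.cast_eq_zero.mp k] at b3
  refine ⟨∑ k ∈ range (N + 1), F.coeff k * b ^ (N - k), ?_, ?_⟩
  · rw [aeval_eq_sum_range' (Nat.lt_succ_of_le hF), mul_sum]
    push_cast
    refine sum_congr rfl fun k hk => ?_
    rw [pow_sub₀ _ b0 (Nat.lt_succ_iff.mp (mem_range.mp hk))]; simp; ring
  · rw [eval_eq_sum_range' (Nat.lt_succ_of_le hF)] at h
    refine (dvd_sub_right h).mp ?_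
    rw [← sum_sub_distrib]
    refine dvd_sum fun k _ => ?_
    rw [← mul_sub, one_pow, ← one_pow (N - k)]
    exact (Dvd.dvd.trans (by omega) (sub_dvd_pow_sub_pow _ _ _)).mul_left _

lemma aux {β D m T κ : ℕ} {ξ x Γ : ℝ} {p : ℤ} {y : ℤ[X]} (hp : (p : ℝ) = (β : ℝ) ^ 2 * x)
    (hx : |x| ≤ 1) (hΓ : 1 ≤ Γ) (hy : Sz y Γ) (h1 : |aeval ((β : ℝ) ^ 2)⁻¹ y| ≤ 1)
    (h2 : |ξ - x| ≤ 1) (h3 : |ξ - x - aeval ((β : ℝ) ^ 2)⁻¹ y| ≤ ((β : ℝ) ^ 2)⁻¹ ^ (T + 1))
    (ze : ZE D m T (y.map (Int.castRingHom ℚ))) (hm : 1 ≤ m)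
    (hβ : 4 * ((D + 1) * (m + 1) : ℕ) * m * (2 * Γ) ^ m ≤ β) (hκ : 2 * κ + 4 ≤ (D + 1) * (m + 1)) :
    ∃ Q : ℤ[X], Q ≠ 0 ∧ Q.natDegree ≤ m ∧ mm Q ≤ ((β : ℝ) ^ 2) ^ (D + m + 1) ∧
      1 ≤ 4 * ((β : ℝ) ^ 2) ^ T * ‖aeval (ξ : ℂ) Q‖ ∧
        ((β : ℝ) ^ 2) ^ κ * ‖aeval (ξ : ℂ) Q‖ ≤ ((β : ℝ) ^ 2) ^ (D + m) := by
  set M := (D + 1) * (m + 1)
  have M1 : (1 : ℝ) ≤ M := by exact_mod_cast (by omega : 1 ≤ M)
  have m1 : (1 : ℝ) ≤ m := by exact_mod_cast hm
  have g1 : Γ ^ m ≤ (2 * Γ) ^ m := by gcongr; linarith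
  have g2 : (2 : ℝ) ^ m ≤ (2 * Γ) ^ m := by gcongr; linarith
  have g3 := one_le_pow₀ (n := m) hΓ
  have β1 : 4 * M * (2 * Γ) ^ m ≤ β := le_trans (mul_le_mul_of_nonneg_right (by nlinarith)
    (by positivity)) hβ
  have β2 : 4 * M * m ≤ (β : ℝ) := (le_mul_of_one_le_right (by positivity) (g3.trans g1)).trans hβ
  have β4 : (4 : ℝ) ≤ β := by nlinarith
  set b : ℝ := β ^ 2 with hb
  have b1 : 1 ≤ b := by nlinarith
  set τ := b⁻¹ with hτ
  have t0 : 0 < τ := by positivity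
  have t1 : τ ≤ 1 := inv_le_one_of_one_le₀ b1
  have bt : b * τ = 1 := mul_inv_cancel₀ (by positivity)
  have sb : ∀ (A : Fin (D + 1) × Fin (m + 1) → ℤ) (f : _ → ℂ) (s : ℝ), (∀ q, |(A q : ℝ)| ≤ β) →
      (∀ q, ‖f q‖ ≤ s) → ‖∑ q, A q * f q‖ ≤ M * β * s := fun A f s hA hf =>
    (norm_sum_le_of_le _ (n := fun _ => β * s) fun q _ => by
      rw [norm_mul, Complex.norm_intCast]; gcongr; exacts [hA q, hf q]).trans_eq (by simp [M]; ring)
  have pt : ∀ i : ℕ, ‖(τ : ℂ) ^ i‖ ≤ 1 := fun i => by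
    rw [norm_pow, Complex.norm_real, Real.norm_of_nonneg t0.le]; exact pow_le_one₀ t0.le t1
  let V : (Fin (D + 1) × Fin (m + 1) → ℤ) → ℝ := fun A =>
    ∑ q, A q * (τ ^ (q.1 : ℕ) * (ξ - x) ^ (q.2 : ℕ))
  obtain ⟨a, -, a', -, ne, ha⟩ := exists_ne_map_eq_of_card_lt_of_maps_to (s := univ)
    (t := Icc (-((β ^ 2) ^ (κ + 1) : ℤ)) ((β ^ 2) ^ (κ + 1)))
    (f := fun a : Fin (D + 1) × Fin (m + 1) → Fin β => ⌊V (fun q => (a q : ℕ)) * b ^ κ⌋) (by
      have : 4 ≤ β := by exact_mod_cast β4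
      have h := Nat.pow_le_pow_right (by omega : 0 < β) hκ
      have := Nat.one_le_pow (κ + 1) (β ^ 2) (by positivity)
      rw [show β ^ (2 * κ + 4) = (β ^ 2) ^ (κ + 1) * (β * β) by ring] at h
      simp only [Int.card_Icc, card_univ, Fintype.card_fun, Fintype.card_fin, Fintype.card_prod]
      have k := Nat.mul_le_mul_left ((β ^ 2) ^ (κ + 1)) (Nat.mul_le_mul ‹4 ≤ β› ‹4 ≤ β›)
      rw [← Nat.cast_pow, ← Nat.cast_pow]
      change _ < β ^ M
      omega) fun a _ => by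
      have := sb (fun q => (a q : ℕ)) (fun q => τ ^ (q.1 : ℕ) * (ξ - x : ℝ) ^ (q.2 : ℕ)) 1
        (fun q => by simp) fun q => by
          rw [norm_mul, norm_pow (_ : ℂ) q.2, Complex.norm_real]
          exact mul_le_one₀ (pt _) (by positivity) (pow_le_one₀ (norm_nonneg _) h2)
      have k : |V (fun q => (a q : ℕ)) * b ^ κ| ≤ b ^ (κ + 1) := by
        rw [abs_mul, abs_of_pos (by positivity : 0 < b ^ κ), pow_succ']
        gcongr
        rw [← Real.norm_eq_abs, ← Complex.norm_real]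
        simp only [V]
        push_cast at this ⊢
        nlinarith
      rw [abs_le] at k
      simp only [coe_Icc, Set.mem_Icc, Int.le_floor]
      exact ⟨by push_cast; exact k.1, Int.cast_le (R := ℝ).mp (by
        push_cast; exact (Int.floor_le _).trans k.2)⟩
  set A : Fin (D + 1) × Fin (m + 1) → ℤ := fun q => (a q : ℕ) - (a' q : ℕ) with hA
  have A1 : ∀ q, |(A q : ℝ)| ≤ β := fun q => by
    have := (a q).2; have := (a' q).2
    rw [← Int.cast_abs]; norm_cast; simp only [hA, abs_le]; omega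
  have up : |V A| * b ^ κ ≤ 1 := by
    have := (Int.abs_sub_lt_one_of_floor_eq_floor ha).le
    rw [← sub_mul, abs_mul, abs_of_pos (by positivity : 0 < b ^ κ)] at this
    simpa [V, hA, sub_mul] using this
  set E : ℤ[X] := ∑ q, C (A q) * (X ^ (q.1 : ℕ) * y ^ (q.2 : ℕ)) with hE
  have lo := lowE (E := E) (T := T) (S := M * β * Γ ^ m) (fun d => ne (by
    have := ze.vec (fun q => A q) (by
      simpa [hE, Polynomial.map_sum, mul_assoc] using Polynomial.map_dvd (Int.castRingHom ℚ) d)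
    funext q
    have := congrFun this q
    simp only [hA, Pi.zero_apply, Int.cast_eq_zero] at this
    exact Fin.ext (by omega))) (fun z hz => by
      simp only [hE, map_sum, map_mul, map_pow, aeval_X, aeval_C, eq_intCast, map_intCast]
      refine sb A _ _ A1 fun q => ?_
      rw [norm_mul, norm_pow, norm_pow]
      exact (mul_le_of_le_one_left (by positivity) (pow_le_one₀ (norm_nonneg _) hz)).trans
        ((pow_le_pow_left₀ (norm_nonneg _) (hy z hz) _).trans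
          (pow_le_pow_right₀ hΓ (Nat.lt_succ_iff.mp q.2.2)))) t0.le t1 (by
      rw [← bt]; gcongr ?_ * _
      calc _ = 4 * M * Γ ^ m * β := by ring
        _ ≤ β * β := by gcongr; exact le_trans (by gcongr) β1
        _ = _ := (sq _).symm)
  have df : ‖aeval (τ : ℂ) E - V A‖ ≤ M * β * (m * τ ^ (T + 1)) := by
    have : aeval (τ : ℂ) y = (aeval τ y : ℝ) := aeval_algebraMap_apply ℂ τ y
    simp only [hE, V, map_sum, map_mul, map_pow, aeval_X, aeval_C, eq_intCast, map_intCast, this,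
      Complex.ofReal_sum, ← sum_sub_distrib, Complex.ofReal_mul, Complex.ofReal_intCast, ← mul_sub,
      Complex.ofReal_pow τ]
    refine sb A _ _ A1 fun q => ?_
    rw [norm_mul, ← Complex.ofReal_pow (aeval τ y), ← Complex.ofReal_sub, Complex.norm_real]
    refine (mul_le_of_le_one_left (norm_nonneg _) (pt _)).trans ((abs_pow_sub_pow_le ..).trans ?_)
    rw [abs_sub_comm, mul_comm (m : ℝ)]
    refine (mul_le_of_le_one_right (by positivity) (pow_le_one₀ (by positivity)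
      (max_le h1 h2))).trans (by gcongr; exact Nat.lt_succ_iff.mp q.2.2)
  have lw : τ ^ T / 4 ≤ |V A| := by
    have := norm_sub_norm_le (aeval (τ : ℂ) E) (V A)
    rw [Complex.norm_real, Real.norm_eq_abs] at this
    have k : M * β * (m * τ ^ (T + 1)) ≤ τ ^ T / 4 := by
      calc _ = 4 * M * m * β * τ * τ ^ T / 4 := by ring
        _ ≤ β * β * τ * τ ^ T / 4 := by gcongr
        _ = _ := by rw [← sq, ← hb, bt, one_mul]
    linarith
  set Q : ℤ[X] := ∑ q, C (A q * (β ^ 2) ^ (D - q.1 + (m - q.2))) *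
    (C (β ^ 2 : ℤ) * X - C p) ^ (q.2 : ℕ) with hQ
  have ev : ∀ z : ℂ, aeval z Q =
      b ^ (D + m) * ∑ q, A q * (τ ^ (q.1 : ℕ) * (z - x) ^ (q.2 : ℕ)) := fun z => by
    have e1 : (p : ℂ) = b * x := by exact_mod_cast hp
    have e2 : (β : ℂ) ^ 2 = b := by simp [hb]
    have e3 : (b : ℂ) * τ = 1 := by exact_mod_cast bt
    simp only [hQ, map_sum, map_mul, map_pow, map_sub, aeval_X, aeval_C, eq_intCast, map_intCast,
      map_natCast, Int.cast_natCast, e1, e2, mul_sum, ← mul_sub, mul_pow]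
    refine sum_congr rfl fun q _ => ?_
    obtain ⟨i, hi⟩ := Nat.exists_eq_add_of_le (Nat.lt_succ_iff.mp q.1.2)
    obtain ⟨j, hj⟩ := Nat.exists_eq_add_of_le (Nat.lt_succ_iff.mp q.2.2)
    rw [show D + m = q.1 + (i + j + q.2) by omega, show D - q.1 + (m - q.2) = i + j by omega,
      pow_add _ (q.1 : ℕ), pow_add _ (i + j)]
    have e4 : (b : ℂ) ^ (q.1 : ℕ) * τ ^ (q.1 : ℕ) = 1 := by rw [← mul_pow, e3, one_pow]
    linear_combination (-(A q : ℂ) * b ^ (i + j) * b ^ (q.2 : ℕ) * (z - x) ^ (q.2 : ℕ)) * e4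
  have nq : ‖aeval (ξ : ℂ) Q‖ = b ^ (D + m) * |V A| := by
    rw [ev, ← abs_of_pos (by positivity : 0 < b ^ (D + m)), ← abs_mul, ← Real.norm_eq_abs,
      ← Complex.norm_real]
    simp [V]
  have l2 : 1 ≤ 4 * b ^ T * ‖aeval (ξ : ℂ) Q‖ := by
    calc (1 : ℝ) = (b * τ) ^ T := by rw [bt, one_pow]
      _ = 4 * b ^ T * (1 * (τ ^ T / 4)) := by ring
      _ ≤ _ := by rw [nq]; gcongr; exact one_le_pow₀ b1
  refine ⟨Q, by rintro k; norm_num [k] at l2, natDegree_sum_le_of_forall_le _ _ fun q _ =>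
    (natDegree_C_mul_le _ _).trans (natDegree_pow_le.trans ((mul_le_mul (Nat.lt_succ_iff.mp q.2.2)
      (by compute_degree) (by simp) (by simp)).trans_eq (mul_one _))),
    mm_circ (one_le_pow₀ b1) fun z hz => ?_, l2, by
      rw [nq, mul_left_comm, mul_comm (b ^ κ)]
      exact mul_le_of_le_one_right (by positivity) up⟩
  rw [ev, norm_mul, norm_pow, Complex.norm_real, Real.norm_of_nonneg (by linarith), pow_succ]
  gcongr
  refine (sb A _ (2 ^ m) A1 fun q => ?_).trans (by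
    calc _ = M * 2 ^ m * (β : ℝ) := by ring
      _ ≤ β * β := by gcongr; exact le_trans (by gcongr; linarith) β1
      _ = _ := (sq _).symm)
  rw [norm_mul, norm_pow (z - x)]
  refine (mul_le_of_le_one_left (by positivity) (pt _)).trans ((pow_le_pow_left₀ (norm_nonneg _)
    ((norm_sub_le _ _).trans ?_) _).trans (pow_le_pow_right₀ one_le_two (Nat.lt_succ_iff.mp q.2.2)))
  rw [hz, Complex.norm_real, Real.norm_eq_abs]; linarith

end Pool.Agent.H46.Tn
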