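import Pool.Agent.H46.Tn.C
set_option autoImplicit false
open Polynomial Finset
namespace Pool.Agent.H46.Tn
open Wx

structure Dt where
  n : ℕ → ℕ
  e : ℕ → ℕ
  σ : ℕ → ℕ
  a : ℕ → ℤ[X]
  hn : ∀ k, n k % 18 = 1 ∧ 19 ≤ n k
  he : ∀ k, 1 ≤ e k
  hσ : ∀ k, Even (σ k) ∧ 40 ≤ σ k ∧ n k ≤ σ k ∧ 2 * k + 2 + e k ≤ σ k ∧
    σ k + (2 * k + 2 + e k) + k + 1 ≤ σ (k + 1)
  ha : ∀ k, X ∣ a k - 1 ∧ X ^ 2 ^ (2 * k + 2 + e k) ∣ a k ^ n k - (1 + C (5 * (n k : ℤ) ^ 2) * X) ∧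
    (a k).natDegree ≤ 2 ^ (2 * k + 2 + e k) ∧ (a k).eval 1 = 0 ∧ Sz (a k) (σ k) ∧
    Sz (a k - 1) (σ k) ∧ Sz (a k ^ n k - (1 + C (5 * (n k : ℤ) ^ 2) * X)) (σ k)

lemma Sz_ex (P : ℤ[X]) : ∃ S : ℕ, ∀ S' : ℕ, S ≤ S' → Sz P S' := by
  obtain ⟨S, hS⟩ := exists_nat_ge (2 ^ P.natDegree * mm P)
  exact ⟨S, fun S' h z hz => (evle P z).trans (by
    rw [max_eq_left hz, one_pow, mul_one]; exact hS.trans (by exact_mod_cast h))⟩

lemma Dt_ex (n e : ℕ → ℕ) (hn : ∀ k, n k % 18 = 1 ∧ 19 ≤ n k) (he : ∀ k, 1 ≤ e k) :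
    ∃ d : Dt, d.n = n ∧ d.e = e := by
  choose a a1 a2 a3 a4 using fun k => series (n k) (2 ^ (2 * k + 2 + e k)) Nat.one_le_two_pow
  choose S hS using Sz_ex
  let A : ℕ → ℕ := fun k => 40 + n k + (2 * k + 2 + e k) + S (a k) + S (a k - 1) +
    S (a k ^ n k - (1 + C (5 * (n k : ℤ) ^ 2) * X))
  let σ : ℕ → ℕ := fun k => k.rec (2 * A 0) fun k s => 2 * (s + A k + k + A (k + 1))
  have h : ∀ k, Even (σ k) ∧ A k ≤ σ k ∧ σ k + A k + k ≤ σ (k + 1) := fun k =>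
    ⟨by cases k <;> exact even_two_mul _, by cases k <;> simp only [σ, Nat.rec_zero] <;> omega,
      by simp only [σ]; omega⟩
  exact ⟨⟨n, e, σ, a, hn, he, fun k => by have := h k; simp only [A] at this; grind, fun k =>
    ⟨a1 k, a2 k, a3 k, a4 k, by have := h k; simp only [A] at this; grind⟩⟩, rfl, rfl⟩

noncomputable def τ (i : ℕ) : ℝ := (2 ^ 2 ^ i)⁻¹

lemma τ_pos (i : ℕ) : 0 < τ i := by unfold τ; positivity
lemma τ_pow {i j : ℕ} (h : i ≤ j) : τ i ^ 2 ^ (j - i) = τ j := by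
  rw [τ, τ, inv_pow, ← pow_mul, ← pow_add, Nat.add_sub_cancel' h]
lemma τ_le (i : ℕ) : τ i ≤ 1 / 2 := by
  rw [τ, one_div]; gcongr; exact le_self_pow₀ one_le_two (by positivity)
lemma τ_mul {i k : ℕ} (h : k ≤ 2 ^ i) : 2 ^ k * τ i ≤ 1 := by
  rw [τ, mul_inv_le_iff₀ (by positivity), one_mul]; gcongr; exact one_le_two
lemma pw2 {a c : ℕ} (ρ : ℕ) (h : a ≤ ρ) (h2 : 3 ≤ a) (hc : c * a ^ 2 ≤ 2 ^ a) : c * ρ ^ 2 ≤ 2 ^ ρ := by
  induction ρ, h using Nat.le_induction with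
  | base => exact hc
  | succ ρ h ih =>
    have : (ρ + 1) ^ 2 ≤ 2 * ρ ^ 2 := by nlinarith
    rw [pow_succ 2]; nlinarith

namespace Dt
variable (d : Dt)

def free (i : ℕ) : Prop := 10 ≤ i ∧ ∀ k, ¬(d.σ k + (k + 1) ≤ i ∧ i < d.σ k + (k + 1 + d.e k))
open Classical in
noncomputable def cf (g : ℕ → ℕ) (i : ℕ) : ℤ := if d.free i then 3 * g i else 0
noncomputable def W : ℕ → ℤ[X] := Function.extend d.σ (fun k => X ^ 2 ^ (k + 1) * d.a k) 0
noncomputable def it (g : ℕ → ℕ) (i : ℕ) : ℤ[X] := C (d.cf g i) * X + d.W i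
noncomputable def y (g : ℕ → ℕ) (ρ R : ℕ) : ℤ[X] :=
  ∑ i ∈ Ico ρ R, expand ℤ (2 ^ (i - ρ)) (d.it g i)
noncomputable def S (g : ℕ → ℕ) (R : ℕ) : ℝ := ∑ i ∈ range R, aeval (τ i) (d.it g i)

lemma mono : StrictMono d.σ := strictMono_nat_of_lt_succ fun k => by have := d.hσ k; omega
lemma sep {j k : ℕ} (h : j < k) : d.σ j + (2 * j + 2 + d.e j) + j + 1 ≤ d.σ k :=
  (d.hσ j).2.2.2.2.trans (d.mono.monotone h)
lemma W_σ (k : ℕ) : d.W (d.σ k) = X ^ 2 ^ (k + 1) * d.a k := d.mono.injective.extend_apply ..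
lemma W_ne {i : ℕ} (h : ∀ k, d.σ k ≠ i) : d.W i = 0 := Function.extend_apply' _ _ _ (by simpa)
lemma free_of {i k : ℕ} (h1 : d.σ k ≤ i) (h2 : i < d.σ (k + 1))
    (h3 : i < d.σ k + (k + 1) ∨ d.σ k + (k + 1 + d.e k) ≤ i) : d.free i :=
  ⟨by have := d.hσ k; omega, fun j => by
    rcases lt_trichotomy j k with h | rfl | h
    · have := d.sep h; omega
    · omega
    · have := d.mono.monotone (Nat.succ_le_of_lt h); simp only [Nat.succ_eq_add_one] at this; omega⟩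

lemma y_eval (g : ℕ → ℕ) {ρ R : ℕ} (h : ρ ≤ R) : aeval (τ ρ) (d.y g ρ R) = d.S g R - d.S g ρ := by
  rw [y, S, S, ← sum_Ico_eq_sub _ h, map_sum]
  exact sum_congr rfl fun i hi => by rw [expand_aeval, τ_pow (mem_Ico.mp hi).1]

lemma y_up (g : ℕ → ℕ) {ρ R i : ℕ} (v : ℕ) (h : i ∈ Ico ρ R) (hf : d.free i) :
    d.y (Function.update g i v) ρ R =
      d.y (Function.update g i 0) ρ R + C (3 * v : ℤ) * X ^ 2 ^ (i - ρ) := by
  rw [y, y, ← add_sum_erase _ _ h, ← add_sum_erase _ _ h, add_right_comm]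
  congr 1
  · simp [it, cf, hf, add_comm, map_ofNat]
  · exact sum_congr rfl fun j hj => by simp [it, cf, ne_of_mem_erase hj]

lemma y_congr {g g' : ℕ → ℕ} {ρ R : ℕ} (h : ∀ i ∈ Ico ρ R, d.free i → g i = g' i) :
    d.y g ρ R = d.y g' ρ R := sum_congr rfl fun i hi => by
  by_cases f : d.free i <;> simp [it, cf, f, h i hi]

lemma y_win (g : ℕ → ℕ) {k R : ℕ} (h1 : d.σ k < R) (h2 : R ≤ d.σ (k + 1)) :
    d.y g (d.σ k) R = ∑ i ∈ Ico (d.σ k) R, C (d.cf g i) * X ^ 2 ^ (i - d.σ k) +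
      X ^ 2 ^ (k + 1) * d.a k := by
  simp only [y, it, map_add, sum_add_distrib, map_mul, expand_C, expand_X]
  rw [sum_eq_single (d.σ k) (f := fun i => expand ℤ _ (d.W i)) (fun i hi ne => ?_) (by simp [h1])]
  · simp [W_σ]
  rw [mem_Ico] at hi
  rw [d.W_ne fun j hj => ?_, map_zero]
  subst hj
  have := d.mono.le_iff_le.mp hi.1
  have := d.mono.lt_iff_lt.mp (hi.2.trans_le h2)
  exact ne (by congr; omega)

variable {g : ℕ → ℕ} (hg : ∀ i, 1 ≤ g i ∧ g i ≤ 2 ^ (12 * i + 7))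

lemma it_small {i : ℕ} (h : i < 10) : d.it g i = 0 := by
  rw [it, cf, if_neg fun f => by have := f.1; omega, d.W_ne fun k => by have := d.hσ k; omega]; simp

lemma it_cases (i : ℕ) : X ∣ d.W i ∧ Sz (d.W i) i ∧ (d.W i).eval 1 = 0 := by
  by_cases h : ∃ k, d.σ k = i
  · obtain ⟨k, rfl⟩ := h
    rw [W_σ]
    refine ⟨(dvd_pow_self _ (by positivity)).mul_right _, fun z hz => ?_, by simp [(d.ha k).2.2.2.1]⟩
    rw [map_mul, norm_mul, map_pow, aeval_X, norm_pow]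
    exact (mul_le_of_le_one_left (norm_nonneg _) (pow_le_one₀ (norm_nonneg _) hz)).trans
      ((d.ha k).2.2.2.2.1 z hz)
  · rw [d.W_ne (by simpa using h)]
    exact ⟨by simp, fun z _ => by simp, by simp⟩

include hg in
lemma cf_le (i : ℕ) : 0 ≤ d.cf g i ∧ d.cf g i ≤ 3 * 2 ^ (12 * i + 7) := by
  have : (g i : ℤ) ≤ 2 ^ (12 * i + 7) := by exact_mod_cast (hg i).2
  unfold cf; split_ifs <;> omega

include hg in
lemma it_Sz (i : ℕ) : Sz (d.it g i) (2 ^ (12 * i + 9)) := fun z hz => by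
  have h1 : ‖(d.cf g i : ℂ)‖ ≤ 3 * 2 ^ (12 * i + 7) := by
    rw [Complex.norm_intCast, abs_of_nonneg (by exact_mod_cast (d.cf_le hg i).1)]
    exact_mod_cast (d.cf_le hg i).2
  have h2 : (i : ℝ) ≤ 2 ^ (12 * i + 7) := by
    exact_mod_cast Nat.lt_two_pow_self.le.trans (Nat.pow_le_pow_right two_pos (by omega))
  rw [it, map_add, map_mul, aeval_C, aeval_X, eq_intCast]
  refine (norm_add_le _ _).trans ?_
  rw [norm_mul]
  linarith [(d.it_cases i).2.1 z hz, mul_le_of_le_one_right (norm_nonneg (d.cf g i : ℂ)) hz,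
    show (2 : ℝ) ^ (12 * i + 9) = 4 * 2 ^ (12 * i + 7) by ring]

include hg in
lemma xi : ∃ ξ : ℝ, ∀ R, |ξ - d.S g (R + 1)| ≤ τ R := by
  have b : ∀ R j, ‖aeval (τ (j + (R + 1))) (d.it g (j + (R + 1)))‖ ≤ τ R / 2 / 2 ^ j := fun R j => by
    set i := j + (R + 1)
    by_cases h : i < 10
    · rw [d.it_small h]; simpa using by have := τ_pos R; positivity
    have := (d.it_Sz hg i).small (o := 1) (z := τ i) (by
      simpa [it] using (dvd_add_right (dvd_mul_left _ _)).mpr (d.it_cases i).1) (by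
      rw [Complex.norm_real, Real.norm_of_nonneg (τ_pos i).le]; linarith [τ_le i])
    rw [cst, Complex.norm_real, Real.norm_of_nonneg (τ_pos i).le, pow_one] at this
    refine this.trans ?_
    rw [← τ_pow (show j + R ≤ i by omega), show i - (j + R) = 1 by omega]
    have k := τ_mul (i := j + R) (k := 12 * i + 9 + (j + 1))
      (le_trans (by nlinarith [show 9 ≤ j + R by omega, show i = j + R + 1 by omega]) (pw2 (c := 6) (a := 9) (j + R) (by omega) (by omega) (by norm_num)))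
    have k2 : τ (j + R) ≤ τ R := by
      rw [← τ_pow (Nat.le_add_left R j)]
      exact pow_le_of_le_one (τ_pos R).le (by linarith [τ_le R]) (by positivity)
    rw [div_div, le_div_iff₀ (by positivity)]
    calc _ = 2 ^ (12 * i + 9 + (j + 1)) * τ (j + R) * τ (j + R) := by ring
      _ ≤ 1 * τ R := mul_le_mul k k2 (τ_pos _).le zero_le_one
      _ = _ := one_mul _
  have s : Summable fun i => aeval (τ i) (d.it g i) := (summable_nat_add_iff 1).mp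
    (.of_norm_bounded (summable_geometric_two' _) (b 0))
  refine ⟨∑' i, aeval (τ i) (d.it g i), fun R => ?_⟩
  rw [← s.sum_add_tsum_nat_add (R + 1), S, add_sub_cancel_left, ← Real.norm_eq_abs]
  exact tsum_of_norm_bounded (hasSum_geometric_two' _) (b R)

lemma b3 {i : ℕ} (h : 1 ≤ i) : 2 ^ 2 ^ i % 3 = 1 := by
  obtain ⟨i, rfl⟩ := Nat.exists_eq_add_of_le' h
  rw [pow_succ', pow_mul, Nat.pow_mod]; simp

lemma cf3 (i : ℕ) : 3 ∣ d.cf g i := by unfold cf; split_ifs <;> simp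

lemma intS {ρ : ℕ} (h : ∀ k, d.σ k < ρ → d.σ k + (2 * k + 2 + d.e k) < ρ) :
    ∃ p : ℤ, (p : ℝ) = 2 ^ 2 ^ ρ * d.S g ρ ∧ 3 ∣ p := by
  have : ∀ i, ∃ p : ℤ, i < ρ → (p : ℝ) = 2 ^ 2 ^ ρ * aeval (τ i) (d.it g i) ∧ 3 ∣ p := fun i => by
    by_cases h1 : i < 10
    · exact ⟨0, by simp [d.it_small h1]⟩
    by_cases h2 : i < ρ
    swap; · exact ⟨0, fun k => absurd k h2⟩
    refine (int3 (F := d.it g i) (N := 2 ^ (ρ - i)) ?_ (b3 (by omega : 1 ≤ i))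
      (by simp [it, (d.it_cases i).2.2, d.cf3])).elim fun p ⟨p1, p2⟩ => ?_
    swap
    · refine ⟨p, fun _ => ⟨?_, p2⟩⟩
      rw [p1, Nat.cast_pow, ← pow_mul, ← pow_add, Nat.add_sub_cancel' h2.le]; rfl
    refine natDegree_add_le_of_degree_le ((natDegree_C_mul_le _ _).trans
      (natDegree_X_le.trans Nat.one_le_two_pow)) ?_
    by_cases h3 : ∃ k, d.σ k = i
    · obtain ⟨k, rfl⟩ := h3
      have := h k h2
      rw [W_σ]
      refine (natDegree_mul_le_of_le (natDegree_X_pow_le _) (d.ha k).2.2.1).trans ?_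
      calc _ ≤ 2 ^ (2 * k + 2 + d.e k) + 2 ^ (2 * k + 2 + d.e k) :=
            Nat.add_le_add_right (Nat.pow_le_pow_right two_pos (by omega)) _
        _ = 2 ^ (2 * k + 2 + d.e k + 1) := by ring
        _ ≤ _ := Nat.pow_le_pow_right two_pos (by omega)
    · simp [d.W_ne (by simpa using h3)]
  choose p hp using this
  refine ⟨∑ i ∈ range ρ, p i, ?_, dvd_sum fun i hi => (hp i (mem_range.mp hi)).2⟩
  rw [S, mul_sum, Int.cast_sum]
  exact sum_congr rfl fun i hi => (hp i (mem_range.mp hi)).1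

lemma rho (r : ℕ) : ∃ ρ, ρ ≤ r ∧ r ≤ 2 * ρ ∧ (∀ k, d.σ k < ρ → d.σ k + (2 * k + 2 + d.e k) < ρ) ∧
    ∀ k, d.σ k ≤ r → r ≤ d.σ k + (2 * k + 2 + d.e k) → ρ = d.σ k := by
  by_cases h : ∃ k, d.σ k ≤ r ∧ r ≤ d.σ k + (2 * k + 2 + d.e k)
  · obtain ⟨k, h1, h2⟩ := h
    refine ⟨d.σ k, h1, by have := d.hσ k; omega, fun j hj => ?_, fun j j1 j2 => ?_⟩
    · have := d.sep (d.mono.lt_iff_lt.mp hj); omega
    rcases lt_trichotomy j k with h | rfl | h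
    exacts [by have := d.sep h; omega, rfl, by have := d.sep h; omega]
  push Not at h
  exact ⟨r, le_rfl, by omega, fun k hk => h k hk.le, fun k a b => absurd (h k a) b.not_gt⟩

end Dt
end Pool.Agent.H46.Tn
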