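import Pool.Agent.H46.Tn.D
set_option autoImplicit false
open Polynomial Finset
namespace Pool.Agent.H46.Tn
open Wx

lemma nats {D m T N : ℕ} {h : ℚ[X]} {v₀ : ℚ} (H : ZE D m T (h + C v₀ * X ^ N)) :
    ∃ s : Finset ℕ, s.card ≤ (D + 1) * (m + 1) * (2 * m) ∧
      ∀ v ∉ s, ZE D m T (h + C (3 * v : ℚ) * X ^ N) := by
  obtain ⟨s, s1, s2⟩ := H.gen
  have i : Function.Injective fun v : ℕ => (3 * v : ℚ) := fun a b h => by simpa using h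
  exact ⟨s.preimage _ i.injOn, (card_le_card_of_injOn _ (fun v hv => by simpa using hv)
    i.injOn).trans s1, fun v hv => s2 _ (by simpa using hv)⟩

lemma dev {n K E : ℕ} {c : ℚ} {A : ℚ[X]} (hn : n ≠ 0) (hA : X ∣ A - 1) (K1 : 1 ≤ K) (KE : K < E)
    (h : X ^ E ∣ (MM n c).eval A) : X ^ K ∣ (MM n c).eval (A + C 3 * X ^ K) ∧
      ¬ X ^ (K + 1) ∣ (MM n c).eval (A + C 3 * X ^ K) := by
  obtain ⟨k, hk⟩ := powAddExpansion A (C 3 * X ^ K) n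
  have e : (MM n c).eval (A + C 3 * X ^ K) = (MM n c).eval A +
      X ^ K * ((n : ℚ[X]) * A ^ (n - 1) * C 3 + X ^ K * (k * C 3 ^ 2)) := by
    simp only [MM, eval_sub, eval_pow, eval_X, eval_C, hk]; ring
  rw [e]
  refine ⟨dvd_add ((pow_dvd_pow _ KE.le).trans h) (dvd_mul_right _ _), fun d => ?_⟩
  rw [dvd_add_right ((pow_dvd_pow _ KE).trans h), pow_succ, mul_dvd_mul_iff_left (by simp),
    dvd_add_left ((dvd_pow_self _ (by omega)).mul_right _), X_dvd_iff,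
    coeff_zero_eq_eval_zero] at d
  rw [X_dvd_iff, coeff_zero_eq_eval_zero, eval_sub, eval_one, sub_eq_zero] at hA
  simp [hA, hn] at d

lemma core {n D m N l E : ℕ} {A : ℚ[X]} {c : ℚ} (c0 : c ≠ 0) (a1 : X ∣ A - 1)
    (a2 : X ^ E ∣ (MM n c).eval A) (n1 : 19 ≤ n) (l1 : l ≤ m) (l2 : l * N ≤ D) (N1 : N ≤ D)
    (N0 : 0 < N) (mD : m ≤ D) (m0 : 1 ≤ m) (E1 : 16 * (D * m) ≤ E) :
    (l < n → ZE (D + m * N + l * (2 * N)) l (20 * (D * m)) A) ∧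
    (n ≤ l → ∃ j K, n * (D + m * (2 * N)) ≤ 2 ^ j ∧ 2 ^ j ≤ 16 * (D * m) ∧ 2 ^ j = 2 * N + K ∧
      ZE (D + m * N + l * (2 * N)) l (20 * (D * m)) (A + C 3 * X ^ K)) := by
  have P1 : m * (l * N) ≤ m * D := by gcongr
  have P2 : l * D ≤ m * D := by gcongr
  have P3 : m * N ≤ m * D := by gcongr
  have P4 : l * (l * N) ≤ m * D := by gcongr
  have P7 : D ≤ m * D := Nat.le_mul_of_pos_left _ m0
  rw [mul_comm D m] at *
  refine ⟨fun ln => ?_, fun ln => ?_⟩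
  · have b : (D + m * N + l * (2 * N) + 1) * (l + 1) ≤ 10 * (m * D) := by linarith
    exact (ze1 c0 a1 ((pow_dvd_pow _ (by omega)).trans a2) ln
      ((pow_dvd_pow _ (by omega)).trans a2)).mono (by omega)
  have n2 : n * N ≤ D := le_trans (by gcongr) l2
  have P5 : n * D ≤ m * D := by gcongr; omega
  have P6 : m * (n * N) ≤ m * D := by gcongr
  have P8 : 19 * D ≤ n * D := by gcongr
  have P9 : n * (l * N) ≤ n * D := by gcongr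
  obtain ⟨Y, hY⟩ : ∃ Y, Y = n * (5 * D + m * (2 * N)) := ⟨_, rfl⟩
  have Y0 : Y = 5 * (n * D) + 2 * (m * (n * N)) := by rw [hY]; ring
  have Y1 := Nat.lt_pow_succ_log_self one_lt_two Y
  have Y2 := Nat.pow_log_le_self 2 (show Y ≠ 0 by omega)
  generalize Nat.log 2 Y = j at Y1 Y2
  have eK : 2 ^ j.succ = 2 * 2 ^ j := pow_succ' ..
  obtain ⟨K, hK⟩ : ∃ K, 2 ^ j.succ = 2 * N + K := Nat.exists_eq_add_of_le (by omega)
  have o0 : n * (D + m * N + l * (2 * N)) = n * D + m * (n * N) + 2 * (n * (l * N)) := by ring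
  have o1 : n * (D + m * N + l * (2 * N)) + l + 1 ≤ K := by omega
  obtain ⟨w1, w2⟩ := dev (K := K) (by omega) a1 (by omega) (by omega) a2
  refine ⟨j.succ, K, by linarith, by omega, hK, (ze2 c0 (by omega) ?_ (Nat.lt_succ_self _)
      (by omega) ((pow_dvd_pow _ o1).trans w1) w2).mono ?_⟩
  · rw [add_sub_right_comm]
    exact dvd_add a1 ((dvd_pow_self _ (by omega)).mul_left _)
  have q2 : l / n * K ≤ 10 * (l * D) + 4 * (m * (l * N)) := by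
    calc _ ≤ l / n * (2 * Y) := by gcongr; omega
      _ = 2 * (l / n * n * (5 * D + m * (2 * N))) := by rw [hY]; ring
      _ ≤ 2 * (l * (5 * D + m * (2 * N))) := by gcongr; exact Nat.div_mul_le_self _ _
      _ = _ := by ring
  omega

namespace Dt
variable (d : Dt)

def sharp (r ν : ℕ) : Prop := ∃ k, d.σ k ≤ r ∧ d.n k ≤ 2 ^ (ν + 3) ∧
  d.n k * 2 ^ k ≤ 2 ^ (ν + 3) * 2 ^ (r - d.σ k) ∧
  d.n k * (2 ^ (ν + 3) * 2 ^ (r - d.σ k) + 2 ^ (ν + 3) * 2 ^ (k + 1)) ≤ 2 ^ (k + 1 + d.e k)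

lemma y_map (g : ℕ → ℕ) {ρ R i : ℕ} (v : ℕ) (h : i ∈ Ico ρ R) (hf : d.free i) :
    (d.y (Function.update g i v) ρ R).map (Int.castRingHom ℚ) = (d.y (Function.update g i 0) ρ R).map
      (Int.castRingHom ℚ) + C (3 * v : ℚ) * X ^ 2 ^ (i - ρ) := by
  rw [d.y_up g v h hf]; simp [map_ofNat]

lemma wit0 {D m T ρ R i : ℕ} (g : ℕ → ℕ) (g0 : g i = 0) (h : i ∈ Ico ρ R) (hf : d.free i)
    (H : ZE (D + m * 2 ^ (i - ρ)) (min m (D / 2 ^ (i - ρ))) T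
      ((d.y g ρ R).map (Int.castRingHom ℚ))) :
    ∃ g, ZE D m T ((d.y g ρ R).map (Int.castRingHom ℚ)) := by
  obtain ⟨v, hv⟩ := lemG Nat.one_le_two_pow H
  obtain ⟨s, -, hs⟩ := nats hv
  obtain ⟨v, hv⟩ := Infinite.exists_notMem_finset s
  exact ⟨_, by rw [d.y_map g v h hf, ← g0, Function.update_eq_self]; exact hs v hv⟩

lemma wit {r ν ρ : ℕ} (hν : 2 ≤ ν) (hr : d.σ (2 ^ (ν + 3)) ≤ r) (h1 : ρ ≤ r)
    (h2 : ∀ k, d.σ k ≤ r → r ≤ d.σ k + (2 * k + 2 + d.e k) → ρ = d.σ k) (ns : ¬ d.sharp r ν) :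
    ∃ g, ZE (2 ^ (ν + 3) * 2 ^ (r - ρ)) (2 ^ (ν + 3)) (20 * (2 ^ (ν + 3) * 2 ^ (r - ρ) * 2 ^ (ν + 3)))
      ((d.y g ρ (r + 2 ^ (ν + 3))).map (Int.castRingHom ℚ)) := by
  have m1 : 2 * ν + 11 ≤ 2 ^ (ν + 3) := by
    have : ν < 2 ^ ν := Nat.lt_two_pow_self
    rw [pow_add]; omega
  have pp := fun {a b} => Nat.pow_le_pow_iff_right (n := a) (m := b) one_lt_two
  have eD : 2 ^ (ν + 3) * 2 ^ (r - ρ) = 2 ^ (ν + 3 + (r - ρ)) := (pow_add ..).symm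
  set m := 2 ^ (ν + 3) with hm
  set D := m * 2 ^ (r - ρ) with hD
  have mD : m ≤ D := Nat.le_mul_of_pos_right _ (by positivity)
  by_cases f : d.free (r + ν + 4)
  · have e : 2 ^ (r + ν + 4 - ρ) = 2 * D := by rw [eD, ← pow_succ']; congr 1; omega
    refine d.wit0 0 rfl (mem_Ico.mpr ⟨by omega, by omega⟩) f ?_
    rw [e, Nat.div_eq_of_lt (by omega), Nat.min_zero]
    exact ZE_zero (by linarith [Nat.le_mul_of_pos_right D (by omega : 0 < m)]) _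
  obtain ⟨k, k1, k2⟩ : ∃ k, d.σ k + (k + 1) ≤ r + ν + 4 ∧ r + ν + 4 < d.σ k + (k + 1 + d.e k) := by
    have := d.hσ m
    by_contra c
    exact f ⟨by omega, by simpa using c⟩
  have km : m ≤ k := not_lt.mp fun l => by have := d.sep l; omega
  obtain rfl := h2 k (by omega) (by omega)
  obtain ⟨-, -, -, -, s1⟩ := d.hσ k
  obtain ⟨a1, a2, -⟩ := d.ha k
  obtain ⟨-, n1⟩ := d.hn k
  replace a1 : X ∣ (d.a k).map (Int.castRingHom ℚ) - 1 := by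
    simpa using Polynomial.map_dvd (Int.castRingHom ℚ) a1
  replace a2 : X ^ 2 ^ (2 * k + 2 + d.e k) ∣
      (MM (d.n k) (5 * d.n k ^ 2)).eval ((d.a k).map (Int.castRingHom ℚ)) := by
    simpa [MM, map_ofNat] using Polynomial.map_dvd (Int.castRingHom ℚ) a2
  have c0 : (5 * d.n k ^ 2 : ℚ) ≠ 0 := by positivity
  have y0 : (d.y 0 (d.σ k) (r + m)).map (Int.castRingHom ℚ) =
      X ^ 2 ^ (k + 1) * (d.a k).map (Int.castRingHom ℚ) := by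
    rw [d.y_win 0 (by omega) (by omega)]; simp [cf]
  set A := (d.a k).map (Int.castRingHom ℚ)
  set n := d.n k with hn
  set l := min m (D / 2 ^ k) with hl
  have l1 : l ≤ m := min_le_left _ _
  have l2 : l * 2 ^ k ≤ D := (Nat.le_div_iff_mul_le (by positivity)).mp (min_le_right _ _)
  have N1 : 2 ^ k ≤ D := by rw [eD, pp]; omega
  have E1 : 16 * (D * m) ≤ 2 ^ (2 * k + 2 + d.e k) := by
    have : 8 * m ≤ 2 ^ (k + 1) := by
      have := pw2 (c := 1) (a := 4) k (by omega) (by omega) (by norm_num)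
      rw [pow_succ]; nlinarith
    calc _ = 2 * D * (8 * m) := by ring
      _ ≤ 2 ^ (k + 1 + d.e k) * 2 ^ (k + 1) := by gcongr; rw [eD, ← pow_succ', pp]; omega
      _ = _ := by ring
  suffices H : ∃ g Z, g (d.σ k + k) = 0 ∧ (d.y g (d.σ k) (r + m)).map (Int.castRingHom ℚ) =
      0 + X ^ 2 ^ (k + 1) * Z ∧ ZE (D + m * 2 ^ k + l * 2 ^ (k + 1)) l (20 * (D * m)) Z by
    obtain ⟨g, Z, g0, e, H⟩ := H
    refine d.wit0 g g0 (mem_Ico.mpr ⟨by omega, by omega⟩)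
      (d.free_of (k := k) (by omega) (by omega) (by omega)) ?_
    rw [Nat.add_sub_cancel_left, e]
    exact H.shift (by simp) (by simp) (by simp)
  have eL : 2 ^ (k + 1) = 2 * 2 ^ k := pow_succ' ..
  obtain ⟨h3, h4⟩ := core c0 a1 a2 n1 l1 l2 N1 (by positivity) mD (by omega) E1
  rw [← eL] at h3 h4
  obtain ln | ln := lt_or_ge l n
  · exact ⟨0, A, rfl, by rw [y0, zero_add], h3 ln⟩
  obtain ⟨j, K, j1, j2, hK, H⟩ := h4 ln
  replace j1 : k + 1 + d.e k ≤ j := pp.mp (le_trans (not_le.mp fun c =>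
    ns ⟨k, by omega, ln.trans l1, (Nat.mul_le_mul_right _ ln).trans l2, c⟩).le j1)
  replace j2 : j ≤ 4 + (ν + 3 + (r - d.σ k) + (ν + 3)) :=
    pp.mp (by rwa [pow_add, pow_add, ← eD])
  refine ⟨Function.update 0 (d.σ k + j) 1, _, by rw [Function.update_of_ne (by omega)]; rfl, ?_, H⟩
  rw [d.y_map 0 1 (mem_Ico.mpr ⟨by omega, by omega⟩) (d.free_of (k := k) (by omega) (by omega)
    (by omega)), show Function.update (0 : ℕ → ℕ) _ 0 = 0 from Function.update_eq_self _ _, y0,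
    Nat.add_sub_cancel_left, hK]
  simp; ring

lemma digits : ∃ (g ρ : ℕ → ℕ), (∀ i, 1 ≤ g i ∧ g i ≤ 2 ^ (12 * i + 7)) ∧ ∀ r, ρ r ≤ r ∧
    r ≤ 2 * ρ r ∧ (∀ k, d.σ k < ρ r → d.σ k + (2 * k + 2 + d.e k) < ρ r) ∧ ∀ ν, 2 ≤ ν →
    d.σ (2 ^ (ν + 3)) ≤ r → ¬ d.sharp r ν → ZE (2 ^ (ν + 3) * 2 ^ (r - ρ r)) (2 ^ (ν + 3))
      (20 * (2 ^ (ν + 3) * 2 ^ (r - ρ r) * 2 ^ (ν + 3)))
      ((d.y g (ρ r) (r + 2 ^ (ν + 3))).map (Int.castRingHom ℚ)) := by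
  classical
  choose ρ r1 r2 r3 r4 using d.rho
  refine (greedy (ι := ℕ × ℕ) (fun c g => 2 ≤ c.2 → d.σ (2 ^ (c.2 + 3)) ≤ c.1 →
    ¬ d.sharp c.1 c.2 → ZE (2 ^ (c.2 + 3) * 2 ^ (c.1 - ρ c.1)) (2 ^ (c.2 + 3))
      (20 * (2 ^ (c.2 + 3) * 2 ^ (c.1 - ρ c.1) * 2 ^ (c.2 + 3)))
      ((d.y g (ρ c.1) (c.1 + 2 ^ (c.2 + 3))).map (Int.castRingHom ℚ))) (fun c => ρ c.1)
    (fun c => if d.σ (2 ^ (c.2 + 3)) ≤ c.1 then c.1 + 2 ^ (c.2 + 3) else 0)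
    (fun c => 2 ^ (4 * c.1 + 4)) (fun i => 2 ^ (12 * i + 7))
    (fun i => range (2 * i + 1) ×ˢ range (2 * i + 1)) (fun c i a b => ?_) (fun i => ?_)
    (fun c => ?_) (fun c g g' e h a b s => ?_) fun c g i h => ?_).imp
    fun g ⟨g1, g2⟩ => ⟨ρ, g1, fun r => ⟨r1 r, r2 r, r3 r, fun ν => g2 (r, ν)⟩⟩
  · have := r2 c.1
    have := d.mono.id_le (2 ^ (c.2 + 3))
    have : c.2 + 3 < 2 ^ (c.2 + 3) := Nat.lt_two_pow_self
    split_ifs at b <;> simp at * <;> omega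
  · refine (sum_le_card_nsmul _ _ (2 ^ (8 * i + 4)) fun c hc => Nat.pow_le_pow_right two_pos
      (by simp at hc; omega)).trans_lt ?_
    have : i < 2 ^ i := Nat.lt_two_pow_self
    calc _ = (2 * i + 1) * (2 * i + 1) * 2 ^ (8 * i + 4) := by simp
      _ ≤ (2 * 2 ^ i) * (2 * 2 ^ i) * 2 ^ (8 * i + 4) := by gcongr <;> omega
      _ = 2 ^ (10 * i + 6) := by ring
      _ < _ := Nat.pow_lt_pow_right one_lt_two (by omega)
  · by_cases h : 2 ≤ c.2 ∧ d.σ (2 ^ (c.2 + 3)) ≤ c.1 ∧ ¬ d.sharp c.1 c.2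
    · exact (d.wit h.1 h.2.1 (r1 _) (r4 _) h.2.2).imp fun g h _ _ _ => h
    · exact ⟨0, fun a b s => absurd ⟨a, b, s⟩ h⟩
  · rw [← d.y_congr (g := g) fun i hi _ => e i (mem_Ico.mp hi).1 (by
      rw [if_pos b]; exact (mem_Ico.mp hi).2)]
    exact h a b s
  by_cases k : (2 ≤ c.2 ∧ d.σ (2 ^ (c.2 + 3)) ≤ c.1 ∧ ¬ d.sharp c.1 c.2) ∧
      i ∈ Ico (ρ c.1) (c.1 + 2 ^ (c.2 + 3)) ∧ d.free i
  · obtain ⟨⟨a, b, s⟩, k1, k2⟩ := k
    have := h a b s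
    rw [← Function.update_eq_self i g, d.y_map g _ k1 k2] at this
    obtain ⟨t, t1, t2⟩ := nats this
    refine ⟨t, t1.trans ?_, fun v hv _ _ _ => by rw [d.y_map g _ k1 k2]; exact t2 v hv⟩
    have m1 : 2 ^ (c.2 + 3) < 2 ^ c.1 := ((d.mono.id_le _).trans b).trans_lt Nat.lt_two_pow_self
    have m2 : 2 ^ (c.1 - ρ c.1) ≤ 2 ^ c.1 := Nat.pow_le_pow_right two_pos (by omega)
    calc _ ≤ (2 ^ c.1 * 2 ^ c.1 + 2 ^ c.1 * 2 ^ c.1) * 2 ^ c.1 * (2 * 2 ^ c.1) := by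
          gcongr; exacts [Nat.one_le_iff_ne_zero.mpr (by positivity), m1]
      _ = 2 ^ (4 * c.1 + 2) := by ring
      _ ≤ _ := Nat.pow_le_pow_right two_pos (by omega)
  refine ⟨∅, by simp, fun v _ a b s => ?_⟩
  rw [← d.y_congr (g := g) fun j hj f => (Function.update_of_ne (by
    rintro rfl; exact k ⟨⟨a, b, s⟩, hj, f⟩) _ _).symm]
  exact h a b s

end Dt
end Pool.Agent.H46.Tn
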