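import Pool.Agent.H46.Tn.E
set_option autoImplicit false
open Polynomial Finset
namespace Pool.Agent.H46.Tn
open Wx

lemma dif' {x y : ℝ} (hx : 0 ≤ x) (hy : 1 ≤ y) {n : ℕ} (hn : n ≠ 0) : |x - y| ≤ |x ^ n - y ^ n| := by
  obtain h | h := le_total y x
  · exact (abs_of_nonneg (sub_nonneg.mpr h)).trans_le ((dif hy h hn).trans (le_abs_self _))
  obtain ⟨n, rfl⟩ := Nat.exists_eq_succ_of_ne_zero hn
  rw [abs_sub_comm, abs_of_nonneg (sub_nonneg.mpr h), abs_sub_comm, pow_succ, pow_succ]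
  refine le_trans ?_ (le_abs_self _)
  nlinarith [mul_nonneg (sub_nonneg.mpr (one_le_pow₀ (n := n) hy)) (sub_nonneg.mpr h),
    mul_nonneg (sub_nonneg.mpr (pow_le_pow_left₀ hx h n)) hx]

lemma wr {n : ℕ} {b B ε A h G : ℝ} (n1 : n ≠ 0) (hb : 5 * n ^ 2 ≤ b) (A0 : 0 ≤ A) (e0 : 0 < ε)
    (hA : |A ^ n - (1 + 5 * n ^ 2 * b⁻¹)| ≤ ε) (h1 : 2 * (ε * B) ≤ h) (h2 : h ≤ G * (ε * B))
    (B1 : 1 ≤ B) (sm : (G + 1) * (ε * B) ≤ 1) (big : b * ((G + 1) * n * 3 ^ n) ≤ B) :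
    ∃ ω, b * ω ^ n = b + 5 * n ^ 2 ∧ ε * B ≤ A + h - ω ∧ A + h - ω ≤ (G + 1) * (ε * B) ∧
      |A + h| ≤ 3 ∧ ε ≤ |b * (A + h) ^ n - (b + 5 * n ^ 2)| ∧
      |b * (A + h) ^ n - (b + 5 * n ^ 2)| ≤ ε * B ^ 2 := by
  have n2 : (1 : ℝ) ≤ n := by exact_mod_cast Nat.one_le_iff_ne_zero.mpr n1
  have b1 : 1 ≤ b := by nlinarith
  have c1 : 5 * n ^ 2 * b⁻¹ ≤ 1 := mul_inv_le_one_of_le₀ hb (by linarith)
  have c0 : 0 ≤ 5 * n ^ 2 * b⁻¹ := by positivity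
  set ω := (1 + 5 * n ^ 2 * b⁻¹) ^ (n : ℝ)⁻¹
  have w : ω ^ n = 1 + 5 * n ^ 2 * b⁻¹ := Real.rpow_inv_natCast_pow (by linarith) n1
  have w1 : 1 ≤ ω := Real.one_le_rpow (by linarith) (by positivity)
  have w2 : ω ≤ 2 := by linarith [le_self_pow₀ w1 n1]
  have w3 : b * ω ^ n = b + 5 * n ^ 2 := by rw [w]; field_simp
  have k := abs_le.mp ((dif' A0 w1 n1).trans (w ▸ hA))
  have eB : ε ≤ ε * B := le_mul_of_one_le_right e0.le B1
  have k1 : ε * B ≤ A + h - ω := by linarith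
  have k2 : A + h - ω ≤ (G + 1) * (ε * B) := by linarith
  have k3 : |A + h| ≤ 3 := abs_le.mpr ⟨by linarith, by linarith⟩
  refine ⟨ω, w3, k1, k2, k3, ?_⟩
  rw [← w3, ← mul_sub, abs_mul, abs_of_pos (by linarith : 0 < b)]
  constructor
  · refine le_trans ?_ (le_mul_of_one_le_left (abs_nonneg _) b1)
    exact (eB.trans (k1.trans (le_abs_self _))).trans (dif' (by linarith) w1 n1)
  calc _ ≤ b * ((G + 1) * (ε * B) * n * 3 ^ n) := by
        gcongr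
        refine (abs_pow_sub_pow_le ..).trans ?_
        rw [abs_of_nonneg (by linarith)]
        gcongr ?_ * _ * ?_
        · exact mul_nonneg (by linarith) (by positivity)
        exact (pow_le_pow_left₀ (by positivity) (max_le k3 (by rw [abs_of_pos] <;> linarith)) _).trans
          (pow_le_pow_right₀ (by norm_num) (by omega))
    _ = b * ((G + 1) * n * 3 ^ n) * (ε * B) := by ring
    _ ≤ B * (ε * B) := by gcongr
    _ = _ := by ring

noncomputable def MP (u v n : ℕ) (p : ℤ) : ℤ[X] :=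
  C (2 ^ u) * (C (2 ^ v) * X - C p) ^ n - C (2 ^ u + 5 * (n : ℤ) ^ 2)

lemma MP_deg (u v : ℕ) {n : ℕ} (hn : n ≠ 0) (p : ℤ) :
    (MP u v n p).natDegree = n ∧ (MP u v n p).leadingCoeff = 2 ^ u * (2 ^ v) ^ n := by
  have d : (C (2 ^ u) * (C (2 ^ v) * X - C p) ^ n : ℤ[X]).natDegree = n := by
    rw [natDegree_C_mul (by positivity), natDegree_pow, sub_eq_add_neg, ← C_neg,
      natDegree_linear (by positivity), mul_one]
  rw [MP, natDegree_sub_C, leadingCoeff_sub_of_degree_lt (degree_C_le.trans_lt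
    (natDegree_pos_iff_degree_pos.mp (by omega))), leadingCoeff_mul, leadingCoeff_pow,
    sub_eq_add_neg, ← C_neg, leadingCoeff_linear (by positivity), leadingCoeff_C]
  exact ⟨by rwa [C_neg, ← sub_eq_add_neg], rfl⟩

lemma MP_ev {K : Type*} [Field K] (u v n : ℕ) (p : ℤ) (z : K) :
    aeval z (MP u v n p) = 2 ^ u * (2 ^ v * z - p) ^ n - (2 ^ u + 5 * n ^ 2) := by
  simp [MP, map_ofNat]

lemma MP_irr {u n j : ℕ} (v : ℕ) {p : ℤ} (hn : n % 18 = 1 ∧ 19 ≤ n) (hj : 0 < j) (hp : 3 ∣ p)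
    (hu : 2 ^ u % 9 = 7) : Irreducible (expand ℤ j (MP u v n p)) := by
  obtain ⟨d1, d2⟩ := MP_deg u v (n := n) (by omega) p
  set f := expand ℤ j (MP u v n p) with hf
  have d : f.natDegree = n * j := by rw [hf, natDegree_expand, d1]
  have l : f.leadingCoeff = 2 ^ (u + v * n) := by
    rw [hf, leadingCoeff_expand hj, d2, pow_add, pow_mul]
  have c0 : f.coeff 0 = 2 ^ u * (-p) ^ n - (2 ^ u + 5 * n ^ 2) := by
    rw [coeff_zero_eq_eval_zero, hf, expand_eval, zero_pow hj.ne']; simp [MP]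
  have h9 : (9 : ℤ) ∣ (-p) ^ n :=
    (pow_dvd_pow_of_dvd hp.neg_right 2).trans (pow_dvd_pow _ (by omega))
  have hu' : (2 : ℤ) ^ u % 9 = 7 := by exact_mod_cast hu
  obtain ⟨q, hq⟩ : ∃ q : ℤ, (n : ℤ) ^ 2 = 18 * q + 1 := ⟨18 * (n / 18) ^ 2 + 2 * (n / 18), by
    conv_lhs => rw [show (n : ℤ) = 18 * (n / 18) + 1 by omega]
    ring⟩
  have h2 : (2 : ℤ) ∣ 2 ^ u := dvd_pow_self _ (by rintro rfl; simp at hu)
  refine irreducible_of_eisenstein_criterion (P := Ideal.span {3})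
    ((Ideal.span_singleton_prime (by norm_num)).mpr Int.prime_three) ?_ (fun i hi => ?_)
    (natDegree_pos_iff_degree_pos.mp (by rw [d]; exact Nat.mul_pos (by omega) hj)) ?_ fun r hr => ?_
  · rw [l, Ideal.mem_span_singleton]
    exact fun h => by simpa using Int.prime_three.dvd_of_dvd_pow h
  · have : C 3 ∣ f - C (2 ^ (u + v * n)) * X ^ (n * j) := by
      have e : f - C (2 ^ (u + v * n)) * X ^ (n * j) = C (2 ^ u) * ((C (2 ^ v) * X ^ j - C p) ^ n -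
          (C (2 ^ v) * X ^ j) ^ n) - C (2 ^ u + 5 * (n : ℤ) ^ 2) := by
        simp only [hf, MP, map_sub, map_mul, expand_C, map_pow, expand_X]; ring
      rw [e]
      refine dvd_sub (Dvd.dvd.mul_left (Dvd.dvd.trans ?_ (sub_dvd_pow_sub_pow _ _ _)) _)
        (_root_.map_dvd C (by omega))
      rw [sub_sub_cancel_left]
      exact (_root_.map_dvd C hp).neg_right
    have := (C_dvd_iff_dvd_coeff _ _).mp this i
    rwa [coeff_sub, coeff_C_mul_X_pow, if_neg (d ▸ coe_lt_degree.mp hi).ne, sub_zero,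
      ← Ideal.mem_span_singleton] at this
  · rw [Ideal.span_singleton_pow, Ideal.mem_span_singleton, c0]
    have := h9.mul_left (2 ^ u)
    omega
  · rw [C_dvd_iff_dvd_coeff] at hr
    obtain ⟨t, ht⟩ : 2 ∣ f.coeff 0 + 1 := by
      have := h2.mul_right ((-p) ^ n)
      omega
    exact (IsCoprime.pow_left (m := u + v * n) (⟨t, -1, by linarith⟩ :
      IsCoprime (2 : ℤ) (f.coeff 0))).isUnit_of_dvd' (l ▸ hr _) (hr 0)

lemma MP_mm {u v n : ℕ} {p : ℤ} (hp : |(p : ℝ)| ≤ 2 ^ v) (h5 : 5 * (n : ℝ) ^ 2 ≤ 2 ^ u)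
    (hn : n ≠ 0) (h : u + n + 1 ≤ v) : mm (MP u v n p) ≤ (2 ^ v) ^ (n + 1) :=
  mm_circ (one_le_pow₀ (one_le_pow₀ one_le_two)) fun z hz => by
    have k : ‖2 ^ v * z - p‖ ≤ 2 * 2 ^ v := (norm_sub_le _ _).trans (by simp [hz]; linarith)
    have k0 : (1 : ℝ) ≤ 2 ^ v := one_le_pow₀ one_le_two
    have k1 : (2 : ℝ) ≤ (2 * 2 ^ v) ^ n := le_trans (by linarith) (le_self_pow₀ (by linarith) hn)
    rw [MP_ev]
    calc _ ≤ 2 ^ u * (2 * 2 ^ v) ^ n + 2 ^ u * (2 : ℝ) := by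
          refine (norm_sub_le _ _).trans (add_le_add (by simp; gcongr) ?_)
          exact (norm_add_le _ _).trans (by simp; linarith)
      _ ≤ 2 ^ u * (2 * 2 ^ v) ^ n + 2 ^ u * (2 * 2 ^ v) ^ n := by gcongr
      _ = 2 ^ (u + n + 1) * (2 ^ v) ^ n := by ring
      _ ≤ _ := by rw [pow_succ' (2 ^ v : ℝ)]; gcongr; exact one_le_two

lemma b9 {i : ℕ} (h : Even i) (h2 : 2 ≤ i) : 2 ^ 2 ^ i % 9 = 7 := by
  obtain ⟨j, rfl⟩ : ∃ j, i = 2 * j + 2 := by obtain ⟨j, rfl⟩ := h; exact ⟨j - 1, by omega⟩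
  clear h h2
  induction j with
  | zero => rfl
  | succ j ih => rw [show 2 ^ (2 * (j + 1) + 2) = 2 ^ (2 * j + 2) * 4 by ring, pow_mul, Nat.pow_mod, ih]

end Pool.Agent.H46.Tn
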