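import Pool.Agent.H46.Tn.F1
set_option autoImplicit false
open Polynomial Finset
namespace Pool.Agent.H46.Tn
open Wx

lemma τ_anti {i j : ℕ} (h : i ≤ j) : τ j ≤ τ i := by
  rw [← τ_pow h]; exact pow_le_of_le_one (τ_pos i).le (by linarith [τ_le i]) (by positivity)
lemma τ_int {i j : ℕ} (h : i ≤ j) : (2 : ℝ) ^ 2 ^ j * τ i = 2 ^ (2 ^ j - 2 ^ i) := by
  rw [pow_sub₀ _ two_ne_zero (Nat.pow_le_pow_right two_pos h), τ]
lemma Sz.τ {P : ℤ[X]} {S : ℝ} {o : ℕ} (h : Sz P S) (d : X ^ o ∣ P) (i : ℕ) :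
    |aeval (τ i) P| ≤ S * τ i ^ o := by
  have := h.small d (z := Tn.τ i) (by
    rw [Complex.norm_real, Real.norm_of_nonneg (τ_pos i).le]; linarith [τ_le i])
  rwa [cst, Complex.norm_real, Real.norm_of_nonneg (τ_pos i).le] at this

namespace Dt
variable (d : Dt) {g : ℕ → ℕ} (hg : ∀ i, 1 ≤ g i ∧ g i ≤ 2 ^ (12 * i + 7)) {ξ : ℝ}
  (hξ : ∀ R, |ξ - d.S g (R + 1)| ≤ τ R)

include hξ in
lemma xi_half : |ξ| ≤ 1 / 2 := by simpa [S, d.it_small] using (hξ 0).trans (τ_le 0)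

include hg hξ in
lemma xi_pos : 0 < ξ := by
  have e : d.S g 11 = 3 * g 10 * τ 10 := by
    rw [S, sum_range_succ, sum_eq_zero fun i hi => by simp [d.it_small (mem_range.mp hi)], it, cf,
      if_pos ⟨le_rfl, fun k => by have := d.hσ k; omega⟩, d.W_ne fun k => by have := d.hσ k; omega]
    simp [map_ofNat]
  have := abs_le.mp (hξ 10)
  have g1 : (1 : ℝ) ≤ g 10 := by exact_mod_cast (hg 10).1
  nlinarith [τ_pos 10]

include hg hξ in
lemma win (k : ℕ) : ∃ (p : ℤ) (α : ℝ), 3 ∣ p ∧ |(p : ℝ)| ≤ 2 ^ 2 ^ (d.σ k + (k + 1)) ∧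
    aeval α (MP (2 ^ d.σ k) (2 ^ (d.σ k + (k + 1))) (d.n k) p) = 0 ∧
    τ (d.σ k + (k + 1 + d.e k)) ≤ ξ - α ∧
    ξ - α ≤ τ (d.σ k + (k + 1 + d.e k)) * 2 ^ 2 ^ (d.σ k + (k + 1)) ∧
    τ (d.σ k + (k + 1 + d.e k)) ≤ |aeval ξ (MP (2 ^ d.σ k) (2 ^ (d.σ k + (k + 1))) (d.n k) p)| ∧
    |aeval ξ (MP (2 ^ d.σ k) (2 ^ (d.σ k + (k + 1))) (d.n k) p)| ≤
      τ (d.σ k + (k + 1 + d.e k)) * (2 ^ 2 ^ (d.σ k + (k + 1))) ^ 2 := by
  obtain ⟨-, s1, s2, s3, s4⟩ := d.hσ k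
  obtain ⟨a1, a2, -, -, -, a3, a4⟩ := d.ha k
  obtain ⟨-, n1⟩ := d.hn k
  have e1 := d.he k
  obtain ⟨q, q1, q2⟩ := d.intS (g := g) (ρ := d.σ k) fun j hj => by
    have := d.sep (d.mono.lt_iff_lt.mp hj); omega
  have fr := d.free_of (i := d.σ k + (k + 1 + d.e k)) (k := k) (by omega) (by omega) (by omega)
  have E := d.y_eval g (ρ := d.σ k) (R := d.σ k + (k + 1 + d.e k) + 1) (by omega)
  rw [d.y_win g (by omega) (by omega), map_add, map_sum, sum_congr rfl fun i hi => by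
      rw [map_mul, map_pow, aeval_X, τ_pow (mem_Ico.mp hi).1, aeval_C, eq_intCast],
    sum_Ico_succ_top (by omega), ← sum_Ico_consecutive _ (n := d.σ k + (k + 1)) (by omega)
      (by omega), sum_eq_zero (s := Ico (d.σ k + (k + 1)) _) fun i hi => by
        rw [cf, if_neg fun f => f.2 k (mem_Ico.mp hi)]; simp, cf, if_pos fr, map_mul, map_pow,
    aeval_X, ← Nat.add_sub_cancel_left (n := d.σ k) (m := k + 1), τ_pow (by omega),
    Nat.add_sub_cancel_left] at E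
  have hη := abs_le.mp (hξ (d.σ k + (k + 1 + d.e k)))
  have G1 := hg (d.σ k + (k + 1 + d.e k))
  have A1 := a3.τ (o := 1) (by simpa) (d.σ k)
  have A2 := a4.τ a2 (d.σ k)
  rw [← Nat.add_sub_cancel_left (n := d.σ k) (m := 2 * k + 2 + d.e k), τ_pow (by omega)] at A2
  simp only [map_sub, map_one, pow_one, map_pow, map_add, map_mul, aeval_X,
    map_natCast, map_ofNat] at A1 A2
  set σ := d.σ k
  set n := d.n k
  set D := σ + (k + 1 + d.e k)
  set A := aeval (τ σ) (d.a k)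
  set s := σ + (k + 1)
  have t1 : σ * τ σ ≤ 1 := (mul_le_mul_of_nonneg_right (by exact_mod_cast Nat.lt_two_pow_self.le)
    (τ_pos _).le).trans (τ_mul Nat.lt_two_pow_self.le)
  have sq : ∀ i, τ (i + 1) = τ i ^ 2 := fun i => by rw [← τ_pow (Nat.le_succ i)]; simp
  have p2 := pw2 (c := 5) (a := 10) σ (by omega) (by omega) (by norm_num)
  have nb : (3 * 2 ^ (12 * D + 7) + 1 + 1) * n * 3 ^ n ≤ 2 ^ 2 ^ σ :=
    calc _ ≤ 2 ^ (24 * σ + 9) * 2 ^ σ * (2 ^ 2) ^ σ := by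
          gcongr ?_ * ?_ * ?_
          · have := Nat.pow_le_pow_right two_pos (show 12 * D + 7 ≤ 24 * σ + 7 by omega)
            have := Nat.pow_le_pow_right two_pos (show 1 ≤ 24 * σ + 7 by omega)
            rw [pow_add _ _ 9]; rw [pow_add _ (24 * σ)] at *; omega
          · exact s2.trans Nat.lt_two_pow_self.le
          · exact (Nat.pow_le_pow_left (by norm_num) _).trans (Nat.pow_le_pow_right (by norm_num) s2)
      _ = 2 ^ (27 * σ + 9) := by rw [← pow_mul]; ring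
      _ ≤ _ := Nat.pow_le_pow_right two_pos (by nlinarith)
  have n5 : 5 * n ^ 2 ≤ 2 ^ 2 ^ σ := ((Nat.mul_le_mul_left _ (Nat.pow_le_pow_left s2 2)).trans
    p2).trans Nat.lt_two_pow_self.le
  set B : ℝ := 2 ^ 2 ^ s with hB
  have B8 : 8 ≤ B := by
    rw [show (8 : ℝ) = 2 ^ 3 by norm_num]
    exact pow_le_pow_right₀ one_le_two (le_trans (by omega) Nat.lt_two_pow_self.le)
  have bB : (2 : ℝ) ^ 2 ^ σ * 2 ^ 2 ^ σ ≤ B := by
    rw [← pow_add, ← two_mul, ← pow_succ']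
    exact pow_le_pow_right₀ one_le_two (Nat.pow_le_pow_right two_pos (by omega))
  have Bτ : B * τ s = 1 := mul_inv_cancel₀ (by positivity)
  set G : ℝ := 3 * 2 ^ (12 * D + 7) + 1
  replace nb : (G + 1) * n * 3 ^ n ≤ 2 ^ 2 ^ σ := by simp only [G]; exact_mod_cast nb
  have GB : G + 1 ≤ B := by
    refine le_trans ?_ (nb.trans (le_trans (le_mul_of_one_le_right (by positivity)
      (one_le_pow₀ one_le_two)) bB))
    rw [mul_assoc]
    exact le_mul_of_one_le_right (by positivity) (one_le_mul_of_one_le_of_one_le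
      (by exact_mod_cast (by omega : 1 ≤ n)) (one_le_pow₀ (by norm_num)))
  set x := d.S g σ + ∑ i ∈ Ico σ s, d.cf g i * τ i
  obtain ⟨p, p1, p3⟩ : ∃ p : ℤ, (p : ℝ) = B * x ∧ 3 ∣ p := by
    refine ⟨2 ^ (2 ^ s - 2 ^ σ) * q + ∑ i ∈ Ico σ s, d.cf g i * 2 ^ (2 ^ s - 2 ^ i), ?_,
      dvd_add (q2.mul_left _) (dvd_sum fun i _ => (d.cf3 i).mul_right _)⟩
    push_cast
    rw [mul_add, mul_sum, q1, ← τ_int (by omega), ← mul_assoc, mul_assoc _ (τ σ), τ,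
      inv_mul_cancel₀ (by positivity), mul_one]
    exact congrArg _ (sum_congr rfl fun i hi => by rw [← τ_int (mem_Ico.mp hi).2.le]; ring)
  have e0 := τ_pos D
  have g1 : (1 : ℝ) ≤ g D := by exact_mod_cast G1.1
  have g2 : (g D : ℝ) ≤ 2 ^ (12 * D + 7) := by exact_mod_cast G1.2
  have eh : B * ξ - p - A = B * (3 * g D * τ D + (ξ - d.S g (D + 1))) := by
    push_cast at E
    linear_combination -p1 - B * E + A * Bτ
  obtain ⟨ω, w1, w2, w3, w4, w5⟩ := wr (n := n) (b := 2 ^ 2 ^ σ) (B := B) (ε := τ D) (A := A)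
    (h := B * ξ - p - A) (G := G) (by omega) (by exact_mod_cast n5)
    (by linarith [(abs_le.mp A1).1]) e0 (A2.trans (by
      calc _ ≤ σ * τ (D + 1) := by gcongr; exact τ_anti (by omega)
        _ = σ * τ D * τ D := by rw [sq]; ring
        _ ≤ σ * τ σ * τ D := by gcongr; exact τ_anti (by omega)
        _ ≤ _ := mul_le_of_le_one_left e0.le t1))
    (by rw [eh, ← mul_assoc, mul_comm _ B]; gcongr; nlinarith)
    (by rw [eh, ← mul_assoc, mul_comm _ B]; gcongr; simp only [G]; nlinarith) (by linarith)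
    (by calc _ ≤ B * (τ (s + 1) * B) := by gcongr; exact τ_anti (by omega)
          _ = (B * τ s) ^ 2 := by rw [sq]; ring
          _ = _ := by rw [Bτ, one_pow]) (le_trans (by gcongr) bB)
  rw [add_sub_cancel] at w2 w3 w4 w5
  have B0 : 0 < B := by linarith
  have ea : ξ - (p + ω) / B = (B * ξ - p - ω) / B := by field_simp; ring
  refine ⟨p, (p + ω) / B, p3, ?_, by
    rw [MP_ev, mul_div_cancel₀ _ B0.ne', add_sub_cancel_left, w1, sub_self], by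
    rwa [ea, le_div_iff₀ B0], by
    rw [ea, div_le_iff₀ B0, mul_comm _ B]; exact w3.trans (by gcongr), by rwa [MP_ev]⟩
  have := abs_le.mp (d.xi_half hξ)
  rw [abs_le] at w4 ⊢
  constructor <;> nlinarith

include hg in
lemma y_Sz (ρ R : ℕ) : Sz (d.y g ρ R) (2 ^ (13 * R + 9)) := fun z hz => by
  rw [y, map_sum]
  refine (norm_sum_le_of_le _ (n := fun _ => (2 : ℝ) ^ (12 * R + 9)) fun i hi => ?_).trans ?_
  · rw [expand_aeval]
    exact (d.it_Sz hg i _ (by rw [norm_pow]; exact pow_le_one₀ (norm_nonneg _) hz)).trans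
      (pow_le_pow_right₀ one_le_two (by have := (mem_Ico.mp hi).2; omega))
  rw [sum_const, nsmul_eq_mul, show 13 * R + 9 = R + (12 * R + 9) by ring, pow_add _ R]
  gcongr
  exact_mod_cast (Nat.card_Ico ..).trans_le ((Nat.sub_le _ _).trans Nat.lt_two_pow_self.le)

include hg hξ in
lemma gen {N r ρ : ℕ} (hN : 4 ≤ N) (r0 : 40 ≤ r) (r1 : ρ ≤ r) (r2 : r ≤ 2 * ρ) (r4 : 8 * N ≤ r)
    (r3 : ∀ k, d.σ k < ρ → d.σ k + (2 * k + 2 + d.e k) < ρ)
    (ze : ZE (8 * N * 2 ^ (r - ρ)) (8 * N) (20 * (8 * N * 2 ^ (r - ρ) * (8 * N)))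
      ((d.y g ρ (r + 8 * N)).map (Int.castRingHom ℚ))) :
    ∃ Q : ℤ[X], Q ≠ 0 ∧ Q.natDegree ≤ 8 * N ∧ mm Q ≤ (2 ^ (N * 2 ^ r)) ^ 24 ∧
      (2 ^ (N * 2 ^ r)) ^ (Q.natDegree + 1) * mm Q ^ N * ‖aeval (ξ : ℂ) Q‖ ≤ 1 ∧
      1 ≤ (2 ^ (N * 2 ^ r)) ^ (1281 * N) * ‖aeval (ξ : ℂ) Q‖ := by
  obtain ⟨p, p1, -⟩ := d.intS (g := g) r3
  have eb : ((2 ^ 2 ^ (ρ - 1) : ℕ) : ℝ) ^ 2 = 2 ^ 2 ^ ρ := by
    push_cast; rw [← pow_mul, ← pow_succ, Nat.sub_add_cancel (by omega)]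
  have hS : ∀ R, 1 ≤ R → |ξ - d.S g R| ≤ 1 / 2 := fun R h => by
    have := hξ (R - 1); rw [Nat.sub_add_cancel h] at this; exact this.trans (τ_le _)
  have x1 := abs_le.mp (d.xi_half hξ)
  have x2 := abs_le.mp (hS ρ (by omega))
  have x3 := abs_le.mp (hS (r + 8 * N) (by omega))
  have ye := d.y_eval g (ρ := ρ) (R := r + 8 * N) (by omega)
  set t := 2 ^ (r - ρ) with ht
  have t1 : 1 ≤ t := Nat.one_le_two_pow
  have eZ : (2 : ℝ) ^ (N * 2 ^ r) = (2 ^ 2 ^ ρ) ^ (N * t) := by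
    rw [← pow_mul, ht, mul_left_comm, ← pow_add, Nat.add_sub_cancel' r1]
  have Nt : N ≤ N * t := Nat.le_mul_of_pos_right _ t1
  obtain ⟨Q, q0, q1, q2, q3, q4⟩ := aux (β := 2 ^ 2 ^ (ρ - 1)) (κ := 32 * (N * t * N)) (ξ := ξ)
    (x := d.S g ρ) (p := p) (by rwa [eb]) (abs_le.mpr ⟨by linarith, by linarith⟩)
    (one_le_pow₀ one_le_two) (d.y_Sz hg ρ _) (by
      rw [eb, ← τ, ye]; exact abs_le.mpr ⟨by linarith, by linarith⟩)
    (abs_le.mpr ⟨by linarith, by linarith⟩) (by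
      have := hξ (r + 8 * N - 1)
      rw [Nat.sub_add_cancel (by omega), ← τ_pow (show ρ ≤ _ by omega)] at this
      rw [eb, ← τ, ye, sub_sub, add_sub_cancel]
      refine this.trans (pow_le_pow_of_le_one (τ_pos _).le (by linarith [τ_le ρ]) ?_)
      have := pw2 (c := 42) (a := 32) (8 * N) (by omega) (by omega) (by norm_num)
      rw [show r + 8 * N - 1 - ρ = r - ρ + (8 * N - 1) by omega, pow_add, ← ht]
      rw [← Nat.sub_add_cancel (show 1 ≤ 8 * N by omega), pow_succ 2, Nat.sub_add_cancel (by omega)]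
        at this
      calc _ ≤ t * (21 * (8 * N) ^ 2) := by nlinarith
        _ ≤ _ := by gcongr; omega) ze (by omega) (by
      have h1 : 8 * N < 2 ^ ρ := by
        have := pw2 (c := 1) (a := 4) ρ (by omega) (by omega) (by norm_num); nlinarith
      have h2 : t ≤ 2 ^ ρ := Nat.pow_le_pow_right two_pos (by omega)
      have h3 := pw2 (c := 400) (a := 20) ρ (by omega) (by omega) (by norm_num)
      rw [← Nat.sub_add_cancel (show 1 ≤ ρ by omega), pow_succ 2, Nat.sub_add_cancel (by omega)]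
        at h3
      rw [← pow_succ', ← pow_mul]
      norm_cast
      calc _ ≤ 4 * (2 ^ ρ * 2 ^ ρ * 2 ^ ρ) * 2 ^ ρ * 2 ^ ((52 * ρ + 10) * (2 * ρ)) := by
            gcongr 4 * (?_ * ?_) * ?_ * 2 ^ (?_ * ?_) <;> first | omega | nlinarith
        _ = 2 ^ (104 * ρ ^ 2 + 24 * ρ + 2) := by ring
        _ ≤ _ := Nat.pow_le_pow_right two_pos (by nlinarith)) (by nlinarith)
  rw [eb] at q2 q3 q4
  rw [eZ]
  set b : ℝ := 2 ^ 2 ^ ρ
  have b2 : 2 ≤ b := le_self_pow₀ one_le_two (by positivity)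
  have b1 : 1 ≤ b := by linarith
  simp only [← pow_mul]
  have NN : N * N ≤ N * t * N := by gcongr
  have N4 : N * t * 4 ≤ N * t * N := by gcongr
  refine ⟨Q, q0, q1, q2.trans (pow_le_pow_right₀ b1 (by nlinarith)), ?_, q3.trans ?_⟩
  · refine le_of_mul_le_mul_left (le_trans ?_ (q4.trans_eq (mul_one _).symm)) (by positivity)
    calc _ ≤ b ^ (8 * N * t + 8 * N) * (b ^ (N * t * (8 * N + 1)) *
          (b ^ (8 * N * t + 8 * N + 1)) ^ N * ‖aeval (ξ : ℂ) Q‖) := by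
          have : 0 ≤ mm Q := mahlerMeasure_nonneg _
          gcongr
      _ = b ^ (8 * N * t + 8 * N + N * t * (8 * N + 1) + (8 * N * t + 8 * N + 1) * N) *
          ‖aeval (ξ : ℂ) Q‖ := by ring
      _ ≤ _ := by gcongr; nlinarith
  rw [show N * t * (1281 * N) = N * t * N + 20 * (8 * N * t * (8 * N)) by ring, pow_add]
  gcongr
  exact le_trans (by nlinarith) (pow_le_pow_right₀ b1 (show 2 ≤ _ by nlinarith))

end Dt

lemma shp {N n t l E u : ℕ} {x m : ℝ} (n2 : 2 ≤ n) (N1 : 1 ≤ N) (h1 : n * l ≤ 8 * N * t)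
    (h2 : n * (8 * N * t + 8 * N * (2 * l)) ≤ 2 * l * E) (m0 : 0 ≤ m)
    (hm : m ≤ (2 ^ (u * (2 * l))) ^ (n + 1))
    (hx : x ≤ (2 ^ (u * (2 * l) * E))⁻¹ * (2 ^ (u * (2 * l))) ^ 2) :
    m ≤ (2 ^ (N * (u * t))) ^ 24 ∧ (2 ^ (N * (u * t))) ^ (n + 1) * m ^ N * x ≤ 1 := by
  have a1 : u * (2 * l) * (n + 1) ≤ N * (u * t) * 24 := by
    calc _ = u * (2 * l * (n + 1)) := by ring
      _ ≤ u * (3 * (8 * N * t)) := Nat.mul_le_mul_left _ (by nlinarith)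
      _ = _ := by ring
  have a2 : N * (u * t) * (n + 1) + u * (2 * l) * (n + 1) * N + u * (2 * l) * 2 ≤
      u * (2 * l) * E := by
    have : l ≤ N * l := Nat.le_mul_of_pos_left _ N1
    calc _ = u * (N * t * (n + 1) + 2 * l * (n + 1) * N + 4 * l) := by ring
      _ ≤ u * (2 * l * E) := by gcongr; nlinarith [Nat.zero_le (N * t), Nat.zero_le (N * l)]
      _ = _ := by ring
  rw [← pow_mul] at hm
  refine ⟨hm.trans (by rw [← pow_mul]; exact pow_le_pow_right₀ one_le_two a1), ?_⟩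
  calc _ ≤ (2 ^ (N * (u * t))) ^ (n + 1) * m ^ N * _ := mul_le_mul_of_nonneg_left hx (by positivity)
    _ ≤ (2 ^ (N * (u * t))) ^ (n + 1) * (2 ^ (u * (2 * l) * (n + 1))) ^ N *
        ((2 ^ (u * (2 * l) * E))⁻¹ * (2 ^ (u * (2 * l))) ^ 2) := by gcongr
    _ = 2 ^ (N * (u * t) * (n + 1) + u * (2 * l) * (n + 1) * N + u * (2 * l) * 2) *
        (2 ^ (u * (2 * l) * E))⁻¹ := by simp only [← pow_mul, pow_add]; ring
    _ ≤ _ := mul_inv_le_one_of_le₀ (pow_le_pow_right₀ one_le_two a2) (by positivity)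

lemma sup_le (P : ℤ[X]) : P.supNorm ≤ 2 ^ P.natDegree * mm P := by
  obtain ⟨i, hi⟩ := P.exists_eq_supNorm
  have := norm_coeff_le_choose_mul_mahlerMeasure i (P.map (Int.castRingHom ℂ))
  rw [coeff_map, eq_intCast, Complex.norm_intCast, ← Int.norm_eq_abs, ← hi] at this
  refine this.trans (mul_le_mul_of_nonneg_right ?_ (mahlerMeasure_nonneg _))
  exact_mod_cast (Nat.choose_le_two_pow _ _).trans (Nat.pow_le_pow_right two_pos natDegree_map_le)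

theorem main (n e : ℕ → ℕ) (hn : ∀ k, n k % 18 = 1 ∧ 19 ≤ n k) (he : ∀ k, 1 ≤ e k) :
    ∃ (ξ : ℝ) (M : ℕ → ℤ[X]) (B α : ℕ → ℝ), 0 < ξ ∧ ξ ≤ 1 / 2 ∧
    (∀ ν, 2 ≤ ν → ∃ c > 0, ∀ P : ℤ[X], Irreducible P → P.natDegree ≤ 2 ^ ν → (∀ k, ¬ P ∣ M k) →
      c ≤ mm P ^ (2700 * 2 ^ ν) * ‖aeval (ξ : ℂ) P‖) ∧
    ∀ k, (∀ j, 0 < j → Irreducible (expand ℤ j (M k))) ∧ (M k).natDegree = n k ∧ k + 2 ≤ B k ∧
      B k ^ n k ≤ (M k).leadingCoeff ∧ (M k).supNorm ≤ B k ^ (n k + 2) ∧ aeval (α k) (M k) = 0 ∧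
      1 ≤ B k ^ 2 ^ e k * (ξ - α k) ∧ B k ^ 2 ^ e k * (ξ - α k) ≤ B k ∧
      1 ≤ B k ^ 2 ^ e k * |aeval ξ (M k)| ∧ B k ^ 2 ^ e k * |aeval ξ (M k)| ≤ B k ^ 2 := by
  obtain ⟨d, rfl, rfl⟩ := Dt_ex n e hn he
  obtain ⟨g, ρ, hg, H⟩ := d.digits
  obtain ⟨ξ, hξ⟩ := d.xi hg
  choose p α p1 p2 p3 p4 p5 p6 p7 using d.win hg hξ
  have m : ∀ k, mm (MP (2 ^ d.σ k) (2 ^ (d.σ k + (k + 1))) (d.n k) (p k)) ≤
      (2 ^ 2 ^ (d.σ k + (k + 1))) ^ (d.n k + 1) ∧ d.n k ≤ 2 ^ (d.σ k + (k + 1)) := fun k => by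
    obtain ⟨-, s1, s2, -⟩ := d.hσ k
    have h1 := Nat.pow_le_pow_right two_pos (show d.σ k + 1 ≤ d.σ k + (k + 1) by omega)
    have h2 : d.σ k < 2 ^ d.σ k := Nat.lt_two_pow_self
    refine ⟨MP_mm (p2 k) ?_ (by have := hn k; omega) (by omega), by omega⟩
    exact_mod_cast ((Nat.mul_le_mul_left _ (Nat.pow_le_pow_left s2 2)).trans (pw2 (c := 5) (a := 10)
      _ (by omega) (by omega) (by norm_num))).trans Nat.lt_two_pow_self.le
  refine ⟨ξ, fun k => MP (2 ^ d.σ k) (2 ^ (d.σ k + (k + 1))) (d.n k) (p k),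
    fun k => 2 ^ 2 ^ (d.σ k + (k + 1)), α, d.xi_pos hg hξ, (abs_le.mp (d.xi_half hξ)).2,
    fun ν hν => ?_, fun k => ?_⟩
  · have N4 : 4 ≤ 2 ^ ν := Nat.pow_le_pow_right two_pos hν
    have e8 : 2 ^ (ν + 3) = 8 * 2 ^ ν := by ring
    obtain ⟨c, c0, hc⟩ := engine ξ (N := 2 ^ ν) (by omega) (1281 * 2 ^ ν)
      (fun Q => ∃ k, Q = MP (2 ^ d.σ k) (2 ^ (d.σ k + (k + 1))) (d.n k) (p k))
      (fun r => 2 ^ (2 ^ ν * 2 ^ (d.σ (2 ^ (ν + 3)) + r))) (le_self_pow₀ one_le_two (by positivity))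
      (fun r => by rw [← pow_mul]; ring) fun r => by
        set r := d.σ (2 ^ (ν + 3)) + r with hr
        obtain ⟨r1, r2, r3, r4⟩ := H r
        by_cases s : d.sharp r ν
        · obtain ⟨k, k1, k2, k3, k4⟩ := s
          obtain ⟨d1, d2⟩ := MP_deg (2 ^ d.σ k) (2 ^ (d.σ k + (k + 1))) (n := d.n k)
            (by have := hn k; omega) (p k)
          have q := p7 k
          have q2 := (m k).1
          rw [τ, ← add_assoc _ (k + 1), pow_add 2 _ (d.e k), ← cst] at q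
          rw [e8, pow_add 2 (k + 1), pow_succ'] at k4
          have e1 : 2 ^ (d.σ k + (k + 1)) = 2 ^ d.σ k * (2 * 2 ^ k) := by ring
          have e2 : 2 ^ r = 2 ^ d.σ k * 2 ^ (r - d.σ k) := by rw [← pow_add, Nat.add_sub_cancel' k1]
          have q3 : ∃ k', MP (2 ^ d.σ k) (2 ^ (d.σ k + (k + 1))) (d.n k) (p k) =
            MP (2 ^ d.σ k') (2 ^ (d.σ k' + (k' + 1))) (d.n k') (p k') := ⟨k, rfl⟩
          generalize MP (2 ^ d.σ k) (2 ^ (d.σ k + (k + 1))) (d.n k) (p k) = M at *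
          refine ⟨M, leadingCoeff_ne_zero.mp (d2 ▸ by positivity), by omega, ?_⟩
          rw [d1, e2, ← and_assoc]
          rw [e1] at q q2
          exact ⟨shp (by have := hn k; omega) (by omega) (e8 ▸ k3) k4 (mahlerMeasure_nonneg _)
            q2 q, .inr q3⟩
        have z := r4 ν hν (by omega) s
        have := d.hσ (2 ^ (ν + 3))
        have := d.mono.id_le (2 ^ (ν + 3))
        rw [e8] at z
        exact (d.gen hg hξ N4 (by omega) r1 r2 (by simp only [id] at this; omega) r3 z).imp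
          fun Q ⟨a, b, c, e, f⟩ => ⟨a, b, c, e, .inl f⟩
    refine ⟨c, c0, fun P a b h => (hc P a b (by rintro _ ⟨k, rfl⟩; exact h k)).trans ?_⟩
    exact mul_le_mul_of_nonneg_right (pow_le_pow_right₀ (one_le_mahlerMeasure_of_ne_zero a.ne_zero)
      (by omega)) (norm_nonneg _)
  obtain ⟨d1, d2⟩ := MP_deg (2 ^ d.σ k) (2 ^ (d.σ k + (k + 1))) (n := d.n k)
    (by have := hn k; omega) (p k)
  obtain ⟨s0, s1, -⟩ := d.hσ k
  set B : ℝ := 2 ^ 2 ^ (d.σ k + (k + 1)) with hB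
  have eB : B ^ 2 ^ d.e k * τ (d.σ k + (k + 1 + d.e k)) = 1 := by
    rw [hB, ← pow_mul, ← pow_add, add_assoc]; exact mul_inv_cancel₀ (by positivity)
  have u : ∀ x y : ℝ, x ≤ τ (d.σ k + (k + 1 + d.e k)) * y → B ^ 2 ^ d.e k * x ≤ y := fun x y h =>
    (mul_le_mul_of_nonneg_left h (by positivity)).trans_eq (by rw [← mul_assoc, eB, one_mul])
  refine ⟨fun j hj => MP_irr _ (hn k) hj (p1 k) (b9 s0 (by omega)), d1, ?_, ?_, ?_, p3 k,
    eB ▸ by gcongr; exact p4 k, u _ _ (p5 k), eB ▸ by gcongr; exact p6 k, u _ _ (p7 k)⟩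
  · beta_reduce
    exact_mod_cast le_trans (by omega) (Nat.lt_two_pow_self.trans Nat.lt_two_pow_self).le
  · rw [d2]; push_cast
    exact le_mul_of_one_le_left (by positivity) (one_le_pow₀ one_le_two)
  refine (sup_le _).trans ?_
  rw [d1, pow_succ' B]
  exact mul_le_mul (pow_le_pow_right₀ one_le_two (m k).2) (m k).1 (mahlerMeasure_nonneg _)
    (by positivity)

end Pool.Agent.H46.Tn
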