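import Pool.Agent.H46.Tn.F2
set_option autoImplicit false
open Polynomial Filter
namespace Pool.Agent.H46.Tn
open Wx

/-- integer polynomials of degree at most `n` with `0 < |P ξ| ≤ H(P)^(-w)`;
`supNorm` is the naive height -/
def wS (n : ℕ) (ξ w : ℝ) : Set ℤ[X] :=
  {P | P.natDegree ≤ n ∧ 0 < |aeval ξ P| ∧ |aeval ξ P| ≤ P.supNorm ^ (-w)}

/-- real algebraic `α` of degree at most `n` with `0 < |ξ - α| ≤ H(α)^(-w-1)`; an irreducible
integer polynomial vanishing at `α` is the minimal polynomial over `ℤ` up to sign -/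
def wsS (n : ℕ) (ξ w : ℝ) : Set ℝ :=
  {α | ∃ P : ℤ[X], Irreducible P ∧ P.natDegree ≤ n ∧ aeval α P = 0 ∧ 0 < |ξ - α| ∧
    |ξ - α| ≤ P.supNorm ^ (-w - 1)}

/-- Mahler's exponent `w_n(ξ)` -/
noncomputable def wE (n : ℕ) (ξ : ℝ) : EReal := ⨆ (w : ℝ) (_ : (wS n ξ w).Infinite), (w : EReal)

/-- Koksma's exponent `w_n^*(ξ)` -/
noncomputable def wsE (n : ℕ) (ξ : ℝ) : EReal := ⨆ (w : ℝ) (_ : (wsS n ξ w).Infinite), (w : EReal)

lemma mm1 {P : ℤ[X]} (h : P ≠ 0) : 1 ≤ mm P := one_le_mahlerMeasure_of_ne_zero h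

lemma cz {P : ℤ[X]} (h : P ≠ 0) (d : P.natDegree = 0) (v : ℕ) (θ : ℂ) :
    1 ≤ mm P ^ v * ‖aeval θ P‖ := by
  refine one_le_mul_of_one_le_of_one_le (one_le_pow₀ (mm1 h)) ?_
  rw [eq_C_of_natDegree_eq_zero d] at h ⊢
  rw [aeval_C, eq_intCast, Complex.norm_intCast]
  exact_mod_cast Int.one_le_abs (C_ne_zero.mp h)

lemma ext (θ : ℂ) (v : ℕ) {c : ℝ} (c0 : 0 < c) (c1 : c ≤ 1) (P : ℤ[X]) : P ≠ 0 →
    (∀ i, Irreducible i → i ∣ P → c ≤ mm i ^ v * ‖aeval θ i‖) →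
    c ^ P.natDegree ≤ mm P ^ v * ‖aeval θ P‖ := by
  induction P using WfDvdMonoid.induction_on_irreducible with
  | zero => simp
  | unit u hu => exact fun h _ => (pow_le_one₀ c0.le c1).trans (cz h (natDegree_eq_zero_of_isUnit hu) ..)
  | mul a i ha hi ih =>
    intro _ h
    rw [natDegree_mul hi.ne_zero ha, pow_add, mm_mul, mul_pow, map_mul, norm_mul, mul_mul_mul_comm]
    refine mul_le_mul ?_ (ih ha fun j hj d => h j hj (d.mul_left _)) (by positivity)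
      (mul_nonneg (pow_nonneg (mahlerMeasure_nonneg _) _) (norm_nonneg _))
    obtain d | d := eq_or_ne i.natDegree 0
    · exact (pow_le_one₀ c0.le c1).trans (cz hi.ne_zero d ..)
    exact (pow_le_of_le_one c0.le c1 d).trans (h i hi (dvd_mul_right _ _))

def Up (θ : ℝ) (N v : ℕ) : Prop :=
  ∃ c > 0, ∀ P : ℤ[X], P ≠ 0 → P.natDegree ≤ N → c ≤ mm P ^ v * ‖aeval (θ : ℂ) P‖

lemma Up.of {θ : ℝ} {N v : ℕ} {c : ℝ} (c0 : 0 < c)
    (h : ∀ P : ℤ[X], Irreducible P → P.natDegree ≤ N → c ≤ mm P ^ v * ‖aeval (θ : ℂ) P‖) :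
    Up θ N v :=
  ⟨min c 1 ^ N, by positivity, fun P a b => (pow_le_pow_of_le_one (by positivity) (min_le_right _ _)
    b).trans (ext _ v (by positivity) (min_le_right _ _) P a fun i hi d => (min_le_left _ _).trans
      (h i hi ((natDegree_le_of_dvd d a).trans b)))⟩

lemma Up.fin {θ : ℝ} {N v : ℕ} (h : Up θ N v) {w C : ℝ} (hw : v < w) (hC : 0 < C) :
    {P : ℤ[X] | P ≠ 0 ∧ P.natDegree ≤ N ∧ |aeval θ P| ≤ C * P.supNorm ^ (-w)}.Finite := by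
  obtain ⟨c, hc, h⟩ := h
  refine (finite_mahlerMeasure_le N
    (Real.toNNReal ((C * (N + 1) ^ w / c) ^ (w - v)⁻¹))).subset fun P ⟨a1, a2, a3⟩ => ⟨a2, ?_⟩
  have m1 := mm1 a1
  have s1 := sup1 a1
  have v0 : (0 : ℝ) ≤ v := v.cast_nonneg
  refine le_trans ?_ (Real.le_coe_toNNReal _)
  rw [Real.le_rpow_inv_iff_of_pos (by linarith) (by positivity) (by linarith), le_div_iff₀ hc]
  have e := h P a1 a2
  rw [cst] at e
  calc mm P ^ (w - v) * c ≤ mm P ^ (w - v) * (mm P ^ v * (C * P.supNorm ^ (-w))) := by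
        gcongr; exact e.trans (by gcongr)
    _ = mm P ^ w * (C * P.supNorm ^ (-w)) := by
        rw [← mul_assoc, ← Real.rpow_add_natCast (by linarith), sub_add_cancel]
    _ ≤ ((N + 1) * P.supNorm) ^ w * (C * P.supNorm ^ (-w)) := by
        gcongr; exacts [by linarith, mm_le a2]
    _ = _ := by
        rw [Real.mul_rpow (by positivity) (by linarith), Real.rpow_neg (by linarith)]
        field_simp

lemma Up.wS {θ : ℝ} {N v : ℕ} (h : Up θ N v) {w : ℝ} (hw : v < w) : (wS N θ w).Finite :=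
  (h.fin hw one_pos).subset fun P ⟨a1, a2, a3⟩ => ⟨by rintro rfl; simp at a2, a1, by rwa [one_mul]⟩

lemma Up.wsS {θ : ℝ} {N v : ℕ} (h : Up θ N v) {w : ℝ} (hw : v < w) : (wsS N θ w).Finite := by
  obtain ⟨K, K1, hK⟩ := bd N (R := |θ| + 1) (by simp)
  refine ((h.fin (C := K * (N + 1)) hw (by positivity)).biUnion (t := fun P => P.rootSet ℝ)
    fun P _ => P.rootSet_finite ℝ).subset fun α ⟨P, a1, a3, a2, _, a5⟩ => ?_
  have s1 := sup1 a1.ne_zero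
  refine Set.mem_biUnion (x := P) ⟨a1.ne_zero, a3, ?_⟩ (mem_rootSet.mpr ⟨a1.ne_zero, a2⟩)
  have n1 := a5.trans (Real.rpow_le_one_of_one_le_of_nonpos s1 (by linarith [v.cast_nonneg (α := ℝ)]))
  have n2 := abs_sub_abs_le_abs_sub α θ
  rw [abs_sub_comm] at n2
  have U := (hK P a3 θ α (by simp) (by simp; linarith)).2
  rw [norm_eq_zero.mp ((cst α P).trans (abs_eq_zero.mpr a2)), sub_zero, cst, ← Complex.ofReal_sub,
    Complex.norm_real, Real.norm_eq_abs] at U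
  calc _ ≤ K * ((N + 1) * P.supNorm) * P.supNorm ^ (-w - 1) := U.trans (by
        gcongr; exact mm_le a3)
    _ = _ := by rw [Real.rpow_sub_one (by linarith)]; field_simp

lemma Up.wE {θ : ℝ} {N v : ℕ} (h : Up θ N v) : wE N θ ≤ (v : ℝ) ∧ wsE N θ ≤ (v : ℝ) :=
  ⟨iSup₂_le fun _ hw => EReal.coe_le_coe (not_lt.mp fun l => hw (h.wS l)),
    iSup₂_le fun _ hw => EReal.coe_le_coe (not_lt.mp fun l => hw (h.wsS l))⟩

lemma tr {θ : ℝ} (h : ∀ N, 1 ≤ N → ∃ v, Up θ N v) : Transcendental ℤ θ := fun ⟨P, p0, p1⟩ => by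
  obtain ⟨v, c, c0, hc⟩ := h (P.natDegree + 1) (by omega)
  have := hc P p0 (by omega)
  rw [cst, p1, abs_zero, mul_zero] at this
  linarith

lemma inf {T : Type*} {S : Set T} (f : T → ℝ) (h0 : ∀ x ∈ S, 0 < f x)
    (h : ∀ K : ℝ, ∃ x ∈ S, K * f x ≤ 1) : S.Infinite := fun k => by
  obtain ⟨b, hb⟩ := (k.image fun x => (f x)⁻¹).bddAbove
  obtain ⟨x, hx, l⟩ := h (b + 1)
  have := hb ⟨x, hx, rfl⟩
  rw [inv_le_iff_one_le_mul₀ (h0 x hx)] at this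
  linarith [h0 x hx]

lemma sm {H B x u K : ℝ} {a E : ℕ} (H1 : 1 ≤ H) (hH : H ≤ B ^ a) (hx : B ^ E * x ≤ B ^ 2)
    (x0 : 0 < x) (u0 : 0 ≤ u) (hu : u * a + 2 ≤ E) (E3 : 3 ≤ E) (B1 : max K 1 ≤ B) :
    x ≤ H ^ (-u) ∧ K * x ≤ 1 := by
  obtain ⟨K1, B1⟩ := max_le_iff.mp B1
  constructor
  · refine le_trans ?_ (Real.rpow_le_rpow_of_nonpos (by linarith) hH (by linarith))
    rw [← Real.rpow_natCast, ← Real.rpow_mul (by linarith)]
    refine le_of_mul_le_mul_left (hx.trans ?_) (by positivity : 0 < B ^ E)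
    rw [mul_comm, ← Real.rpow_add_natCast (by linarith), ← Real.rpow_natCast]
    exact Real.rpow_le_rpow_of_exponent_le B1 (by push_cast; linarith)
  refine le_of_mul_le_mul_left (le_trans ?_ (hx.trans_eq (mul_one _).symm)) (by positivity)
  rw [← mul_assoc]
  gcongr
  exact le_trans (by rw [pow_succ _ 2]; gcongr) (pow_le_pow_right₀ B1 E3)

lemma lowW {θ w : ℝ} {N a E : ℕ} (w0 : 0 ≤ w) (hw : w * a + 2 ≤ E) (E3 : 3 ≤ E)
    (h : ∀ K, ∃ (P : ℤ[X]) (B : ℝ), K ≤ B ∧ P.natDegree ≤ N ∧ P.supNorm ≤ B ^ a ∧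
      0 < |aeval θ P| ∧ B ^ E * |aeval θ P| ≤ B ^ 2) : (wS N θ w).Infinite :=
  inf (fun P => |aeval θ P|) (fun _ h => h.2.1) fun K => by
    obtain ⟨P, B, a1, a2, a3, a4, a5⟩ := h (max K 1)
    have := sm (sup1 (by rintro rfl; simp at a4)) a3 a5 a4 w0 hw E3 a1
    exact ⟨P, ⟨a2, a4, this.1⟩, this.2⟩

lemma lowS {θ w : ℝ} {N a E : ℕ} (w0 : 0 ≤ w) (hw : (w + 1) * a + 2 ≤ E) (E3 : 3 ≤ E)
    (h : ∀ K, ∃ (P : ℤ[X]) (α B : ℝ), K ≤ B ∧ Irreducible P ∧ P.natDegree ≤ N ∧ aeval α P = 0 ∧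
      P.supNorm ≤ B ^ a ∧ 0 < |θ - α| ∧ B ^ E * |θ - α| ≤ B ^ 2) : (wsS N θ w).Infinite :=
  inf (fun α => |θ - α|) (fun _ ⟨_, h⟩ => h.2.2.2.1) fun K => by
    obtain ⟨P, α, B, a1, a0, a2, a6, a3, a4, a5⟩ := h (max K 1)
    have := sm (sup1 a0.ne_zero) a3 a5 a4 (by linarith) hw E3 a1
    exact ⟨α, ⟨P, a0, a2, a6, a4, by rw [← neg_add']; exact this.1⟩, this.2⟩

lemma dir {θ : ℝ} (hθ : |θ| ≤ 1) (ht : Transcendental ℤ θ) (n : ℕ) :
    (wS (n + 1) θ n).Infinite ∨ n = 0 := by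
  refine or_iff_not_imp_right.mpr fun n0 => lowW (a := 1) (E := n + 2) n.cast_nonneg (by simp)
    (by omega) fun K => ?_
  obtain ⟨H, hH⟩ := exists_nat_ge (max K (2 * n + 6))
  obtain ⟨K1, H1⟩ := max_le_iff.mp hH
  have H2 : 2 * n + 6 ≤ H := by exact_mod_cast H1
  let V : (Fin (n + 2) → ℤ) → ℝ := fun A => ∑ i, A i * θ ^ (i : ℕ)
  obtain ⟨a, -, a', -, ne, ha⟩ := Finset.exists_ne_map_eq_of_card_lt_of_maps_to (s := Finset.univ)
    (t := Finset.Icc (-((n + 2) * H ^ (n + 1) : ℤ)) ((n + 2) * H ^ (n + 1)))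
    (f := fun a : Fin (n + 2) → Fin H => ⌊V (fun i => (a i : ℕ)) * H ^ n⌋) (by
      have := Nat.one_le_pow (n + 1) H (by omega)
      have k := Nat.mul_le_mul_left (H ^ (n + 1)) H2
      simp only [Int.card_Icc, Finset.card_univ, Fintype.card_fun, Fintype.card_fin]
      rw [sub_neg_eq_add, Int.toNat_lt (by positivity), pow_succ H (n + 1)]
      zify at this k
      push_cast
      nlinarith) fun a _ => by
      have k : |V (fun i => (a i : ℕ)) * H ^ n| ≤ (n + 2) * H ^ (n + 1) := by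
        rw [abs_mul, abs_of_nonneg (by positivity : (0 : ℝ) ≤ H ^ n), pow_succ', ← mul_assoc]
        gcongr
        refine (Finset.abs_sum_le_sum_abs _ _).trans ((Finset.sum_le_card_nsmul _ _ (H : ℝ)
          fun i _ => ?_).trans_eq (by simp))
        rw [abs_mul, abs_pow]
        exact (mul_le_of_le_one_right (abs_nonneg _) (pow_le_one₀ (abs_nonneg _) hθ)).trans (by simp)
      rw [abs_le] at k
      simp only [Finset.coe_Icc, Set.mem_Icc, Int.le_floor]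
      exact ⟨by push_cast; exact k.1, Int.cast_le (R := ℝ).mp (by
        push_cast; exact (Int.floor_le _).trans k.2)⟩
  set A : Fin (n + 2) → ℤ := fun q => (a q : ℕ) - (a' q : ℕ) with hA
  set P : ℤ[X] := ∑ i : Fin (n + 2), monomial (i : ℕ) (A i) with hP
  have co : ∀ i : Fin (n + 2), P.coeff i = A i := fun i => by
    simp [hP, coeff_monomial, Fin.val_inj]
  have dg : P.natDegree ≤ n + 1 := natDegree_sum_le_of_forall_le _ _ fun i _ =>
    (natDegree_monomial_le _).trans (Nat.lt_succ_iff.mp i.2)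
  refine ⟨P, H, K1, dg, ?_, abs_pos.mpr fun z => ht ⟨P, fun k => ne (funext fun i => ?_), z⟩, ?_⟩
  · obtain ⟨i, hi⟩ := P.exists_eq_supNorm
    rw [hi, pow_one]
    by_cases l : i < n + 2
    · have := (a ⟨i, l⟩).2; have := (a' ⟨i, l⟩).2
      rw [co ⟨i, l⟩, Int.norm_eq_abs, ← Int.cast_abs]; norm_cast; simp only [hA, abs_le]; omega
    · simp [coeff_eq_zero_of_natDegree_lt (show P.natDegree < i by omega)]
  · have := co i
    simp only [k, coeff_zero, hA] at this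
    exact Fin.ext (by omega)
  have := (Int.abs_sub_lt_one_of_floor_eq_floor ha).le
  rw [← sub_mul, abs_mul, abs_of_nonneg (by positivity : (0 : ℝ) ≤ H ^ n)] at this
  rw [pow_add, mul_right_comm, mul_comm ((H : ℝ) ^ n)]
  refine mul_le_of_le_one_left (by positivity) (le_of_eq_of_le ?_ this)
  simp [V, hP, hA, aeval_monomial]

def Good (n e : ℕ → ℕ) (ξ : ℝ) (M : ℕ → ℤ[X]) (B α : ℕ → ℝ) : Prop := 0 < ξ ∧ ξ ≤ 1 / 2 ∧
    (∀ ν, 2 ≤ ν → ∃ c > 0, ∀ P : ℤ[X], Irreducible P → P.natDegree ≤ 2 ^ ν → (∀ k, ¬ P ∣ M k) →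
      c ≤ mm P ^ (2700 * 2 ^ ν) * ‖aeval (ξ : ℂ) P‖) ∧
    ∀ k, (∀ j, 0 < j → Irreducible (expand ℤ j (M k))) ∧ (M k).natDegree = n k ∧ k + 2 ≤ B k ∧
      B k ^ n k ≤ (M k).leadingCoeff ∧ (M k).supNorm ≤ B k ^ (n k + 2) ∧ aeval (α k) (M k) = 0 ∧
      1 ≤ B k ^ 2 ^ e k * (ξ - α k) ∧ B k ^ 2 ^ e k * (ξ - α k) ≤ B k ∧
      1 ≤ B k ^ 2 ^ e k * |aeval ξ (M k)| ∧ B k ^ 2 ^ e k * |aeval ξ (M k)| ≤ B k ^ 2

lemma asc {P Q : ℤ[X]} (h : Associated P Q) (θ : ℝ) : P.natDegree = Q.natDegree ∧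
    |(P.leadingCoeff : ℝ)| = |(Q.leadingCoeff : ℝ)| ∧ |aeval θ P| = |aeval θ Q| := by
  obtain ⟨u, rfl⟩ := h
  obtain ⟨r, hr, e⟩ := Polynomial.isUnit_iff.mp u.isUnit
  rw [← e]
  rcases Int.isUnit_iff.mp hr with rfl | rfl <;> simp

lemma lc_le (P : ℤ[X]) : |(P.leadingCoeff : ℝ)| ≤ mm P := by
  have m := leadingCoeff_le_mahlerMeasure (P.map (Int.castRingHom ℂ))
  rwa [leadingCoeff_map_of_injective (RingHom.injective_int _), eq_intCast,
    Complex.norm_intCast] at m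

namespace Good
variable {n e : ℕ → ℕ} {ξ : ℝ} {M : ℕ → ℤ[X]} {B α : ℕ → ℝ} (G : Good n e ξ M B α)
include G

lemma B1 (k : ℕ) : 1 ≤ B k := by linarith [(G.2.2.2 k).2.2.1, k.cast_nonneg (α := ℝ)]

lemma spec {P : ℤ[X]} {k j v : ℕ} {θ : ℝ} (hj : 0 < j) (hθ : θ ^ j = ξ)
    (h : Associated P (expand ℤ j (M k))) (hv : 2 ^ e k ≤ n k * v) :
    1 ≤ mm P ^ v * ‖aeval (θ : ℂ) P‖ := by
  obtain ⟨-, a2, a3⟩ := asc h θ
  obtain ⟨-, -, -, b1, -, -, -, -, b2, -⟩ := G.2.2.2 k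
  rw [leadingCoeff_expand hj] at a2
  rw [cst, a3, expand_aeval, hθ]
  refine b2.trans (mul_le_mul_of_nonneg_right ((pow_le_pow_right₀ (G.B1 k) hv).trans ?_)
    (abs_nonneg _))
  rw [pow_mul]
  exact pow_le_pow_left₀ (by have := G.B1 k; positivity) (b1.trans ((le_abs_self _).trans
    (a2 ▸ lc_le P))) _

lemma gen {N : ℕ} (hN : 1 ≤ N) : ∃ c > 0, c ≤ 1 ∧ ∀ P : ℤ[X], Irreducible P → P.natDegree ≤ N →
    (∀ k, ¬ P ∣ M k) → c ≤ mm P ^ (10800 * N) * ‖aeval (ξ : ℂ) P‖ := by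
  obtain ⟨c, c0, hc⟩ := G.2.2.1 (Nat.log 2 N + 2) (by omega)
  have h1 := Nat.lt_pow_succ_log_self one_lt_two N
  have h2 := Nat.pow_log_le_self 2 (show N ≠ 0 by omega)
  rw [pow_succ] at h1
  rw [pow_add] at hc
  exact ⟨min c 1, by positivity, min_le_right _ _, fun P a b h => (min_le_left _ _).trans
    ((hc P a (by omega) h).trans (mul_le_mul_of_nonneg_right (pow_le_pow_right₀ (mm1 a.ne_zero)
      (by omega)) (norm_nonneg _)))⟩

lemma irr (k : ℕ) : Irreducible (M k) := by simpa using (G.2.2.2 k).1 1 one_pos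

lemma up {N v : ℕ} (hN : 1 ≤ N) (h1 : 10800 * N ≤ v) (h2 : ∀ k, n k ≤ N → 2 ^ e k ≤ n k * v) :
    Up ξ N v := by
  obtain ⟨c, c0, c1, hc⟩ := G.gen hN
  refine .of c0 fun P a b => ?_
  by_cases h : ∃ k, P ∣ M k
  · obtain ⟨k, h⟩ := h
    replace h := a.associated_of_dvd (G.irr k) h
    exact c1.trans (G.spec one_pos (pow_one _) (by simpa using h) (h2 k (by
      rw [← (G.2.2.2 k).2.1, ← (asc h 0).1]; exact b)))
  exact (hc P a b (by simpa using h)).trans (mul_le_mul_of_nonneg_right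
    (pow_le_pow_right₀ (mm1 a.ne_zero) h1) (norm_nonneg _))

lemma low {N E : ℕ} {w : ℝ} (w0 : 0 ≤ w) (hw : (w + 1) * (N + 2) + 2 ≤ 2 ^ E) (E3 : 2 ≤ E)
    (h : ∀ K, ∃ k, K ≤ k ∧ n k = N ∧ e k = E) : (wS N ξ w).Infinite ∧ (wsS N ξ w).Infinite := by
  have E4 : 3 ≤ 2 ^ E := le_trans (by norm_num) (Nat.pow_le_pow_right two_pos E3)
  refine ⟨lowW (a := N + 2) w0 (by push_cast; nlinarith [N.cast_nonneg (α := ℝ)]) E4 fun K => ?_,
    lowS (a := N + 2) w0 (by push_cast; linarith) E4 fun K => ?_⟩ <;>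
    obtain ⟨k, k1, rfl, rfl⟩ := h ⌈K⌉₊ <;>
    obtain ⟨-, a1, a2, -, a3, a4, a5, a6, a7, a8⟩ := G.2.2.2 k <;>
    have B1 := G.B1 k <;>
    have K1 : K ≤ B k := by linarith [Nat.ceil_le.mp k1]
  · exact ⟨M k, B k, K1, a1.le, a3, (mul_pos_iff_of_pos_left (by positivity)).mp
      (one_pos.trans_le a7), a8⟩
  have := (mul_pos_iff_of_pos_left (by positivity)).mp (one_pos.trans_le a5)
  exact ⟨M k, α k, B k, K1, G.irr k, a1.le, a4, a3, abs_pos.mpr this.ne', by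
    rw [abs_of_pos this]; nlinarith⟩

end Good

lemma hgt (P : ℤ[X]) : ((P.support.sup fun i => (P.coeff i).natAbs : ℕ) : ℝ) = P.supNorm := by
  obtain ⟨i, hi⟩ := P.exists_eq_supNorm
  have e : ∀ j, ‖P.coeff j‖ = (P.coeff j).natAbs := fun j => by simp [Int.norm_eq_abs]
  rw [hi, e, Nat.cast_inj]
  refine le_antisymm (Finset.sup_le fun j _ => ?_) ?_
  · have := P.le_supNorm j
    rwa [hi, e, e, Nat.cast_le] at this
  by_cases h : P.coeff i = 0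
  · simp [h]
  exact Finset.le_sup (f := fun i => (P.coeff i).natAbs) (mem_support_iff.mpr h)

end Pool.Agent.H46.Tn
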