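import Pool.Agent.H46.Tn.G
set_option autoImplicit false
open Polynomial Filter
namespace Pool.Agent.H46.Tn
open Wx

lemma lsup_le {f : ℕ → EReal} {c : ℝ} (c1 : 1 ≤ c) (N : ℕ) (h : ∀ n, N ≤ n → f n ≤ (c * n : ℝ)) :
    limsup (fun n : ℕ => f n / n) atTop ≤ c ∧ limsup (fun n : ℕ => (f n + 1) / (n + 1)) atTop ≤ c := by
  constructor <;> refine limsup_le_of_le (h := eventually_atTop.mpr ⟨N + 1, fun n hn => ?_⟩)
  · rw [EReal.div_le_iff_le_mul (by norm_cast; omega) (EReal.natCast_ne_top n), mul_comm]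
    exact h n (by omega)
  rw [EReal.div_le_iff_le_mul (by norm_cast; omega) (by exact EReal.coe_ne_top (n + 1))]
  refine (add_le_add_left (h n (by omega)) 1).trans ?_
  exact_mod_cast (show c * n + 1 ≤ (n + 1) * c by linarith)

lemma le_q {x : EReal} {c : ℝ} {n : ℕ} (h : (c * (n + 1) : ℝ) ≤ x) : c ≤ (x + 1) / (n + 1) := by
  rw [EReal.le_div_iff_mul_le (by norm_cast; omega) (by exact EReal.coe_ne_top (n + 1))]
  exact le_trans (by exact_mod_cast h) (le_add_of_nonneg_right zero_le_one)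

lemma le_lsup {f : ℕ → EReal} {c : ℝ} (c0 : 0 ≤ c)
    (h : ∀ K, ∃ n : ℕ, K ≤ n ∧ (c * (n + 1) : ℝ) ≤ f n) :
    c ≤ limsup (fun n : ℕ => f n / n) atTop ∧ c ≤ limsup (fun n : ℕ => (f n + 1) / (n + 1)) atTop := by
  constructor <;> refine le_limsup_of_frequently_le (frequently_atTop.mpr fun K => ?_) <;>
    obtain ⟨n, h1, h2⟩ := h (K + 1) <;> refine ⟨n, by omega, ?_⟩
  · rw [EReal.le_div_iff_mul_le (by norm_cast; omega) (EReal.natCast_ne_top n)]
    refine le_trans ?_ h2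
    exact_mod_cast (show c * n ≤ c * (n + 1) by linarith)
  exact le_q h2

lemma le_wE {n : ℕ} {ξ w : ℝ} (h : (wS n ξ w).Infinite) : w ≤ wE n ξ := le_iSup₂_of_le w h le_rfl
lemma le_wsE {n : ℕ} {ξ w : ℝ} (h : (wsS n ξ w).Infinite) : w ≤ wsE n ξ := le_iSup₂_of_le w h le_rfl

lemma trQ {θ : ℝ} (h : ∀ N, 1 ≤ N → ∃ v, Up θ N v) : Transcendental ℚ θ :=
  mt (IsFractionRing.isAlgebraic_iff ℤ ℚ ℝ).mpr (tr h)

lemma sup_mono {P Q : ℤ[X]} (h : ∀ i, ∃ j, ‖Q.coeff i‖ ≤ ‖P.coeff j‖) : Q.supNorm ≤ P.supNorm := by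
  obtain ⟨i, hi⟩ := Q.exists_eq_supNorm
  exact (h i).elim fun j hj => hi ▸ hj.trans (P.le_supNorm j)

lemma cc (P : ℤ[X]) : (P.comp (C (-1) * X)).comp (C (-1) * X) = P := by simp [comp_assoc]

lemma even (P : ℤ[X]) : ∃ R, expand ℤ 2 R = P * P.comp (C (-1) * X) := by
  refine ⟨contract 2 (P * P.comp (C (-1) * X)), Polynomial.ext fun i => ?_⟩
  rw [coeff_expand two_pos]
  split_ifs with h
  · rw [coeff_contract two_ne_zero, Nat.div_mul_cancel h]
  have := comp_C_mul_X_coeff (p := P * P.comp (C (-1) * X)) (r := -1) (n := i)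
  rw [mul_comp, cc, mul_comm, (Nat.odd_iff.mpr (by omega)).neg_one_pow] at this
  omega

namespace Good
variable {n e : ℕ → ℕ} {ξ θ : ℝ} {M : ℕ → ℤ[X]} {B α : ℕ → ℝ} (G : Good n e ξ M B α)
include G

lemma up2 (hθ : θ ^ 2 = ξ) {N v : ℕ} (hN : 1 ≤ N) (h1 : 21601 * N ≤ v)
    (h2 : ∀ k, n k * 2 ≤ N → 2 ^ e k ≤ n k * v) : Up θ N v := by
  obtain ⟨c, c0, c1, hc⟩ := G.gen hN
  obtain ⟨K, K1, hK⟩ := bd N (R := |θ| + 1) (by simp)
  set L : ℝ := (N + 1) * (2 ^ (2 * N) * ((N + 1) * 2 ^ N)) with hL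
  refine .of (c := min 1 (c ^ N / (L ^ (10800 * N) * K))) (by positivity) fun P a b => ?_
  obtain ⟨R, hR⟩ := even P
  set P' := P.comp (C (-1) * X) with hP
  have d' : P'.natDegree ≤ N := by
    rwa [hP, natDegree_comp, natDegree_C_mul_X _ (by simp), mul_one]
  have d : (expand ℤ 2 R).natDegree ≤ 2 * N := hR ▸ natDegree_mul_le.trans (by omega)
  have dR : R.natDegree ≤ N := by rw [natDegree_expand] at d; omega
  by_cases h : ∃ k, M k ∣ R
  · obtain ⟨k, h⟩ := h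
    have i := (G.2.2.2 k).1 2 two_pos
    have : expand ℤ 2 (M k) ∣ P := (i.prime.dvd_or_dvd (hR ▸ _root_.map_dvd _ h)).elim id
      fun ⟨T, hT⟩ => ⟨T.comp (C (-1) * X), by
        rw [← cc P, ← hP, hT, mul_comp]; simp [expand_eq_comp_X_pow, comp_assoc]⟩
    have s := (i.associated_of_dvd a this).symm
    exact (min_le_left _ _).trans (G.spec two_pos hθ s (h2 k (by
      rw [← (G.2.2.2 k).2.1, ← natDegree_expand, ← (asc s 0).1]; exact b)))
  have P0 : P' ≠ 0 := fun z => a.ne_zero (by rw [← cc P, ← hP, z, zero_comp])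
  have R0 : R ≠ 0 := by rintro rfl; exact mul_ne_zero a.ne_zero P0 (by simpa using hR.symm)
  have m1 := mm1 a.ne_zero
  have E := (pow_le_pow_of_le_one c0.le c1 dR).trans (ext ξ _ c0 c1 R R0 fun i hi di => hc i hi
    ((natDegree_le_of_dvd di R0).trans dR) fun k dk =>
      h ⟨k, (hi.associated_of_dvd (G.irr k) dk).dvd'.trans di⟩)
  have m2 : mm R ≤ L * mm P ^ 2 :=
    calc _ ≤ (N + 1) * (expand ℤ 2 R).supNorm := (mm_le dR).trans (by
          gcongr; exact sup_mono fun i => ⟨i * 2, by rw [coeff_expand_mul two_pos]⟩)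
      _ ≤ (N + 1) * (2 ^ (2 * N) * (mm P * ((N + 1) * (2 ^ N * mm P)))) := by
          gcongr
          refine (sup_le _).trans ?_
          rw [hR] at d ⊢
          rw [mm_mul]
          have := mm1 P0
          gcongr
          · exact one_le_two
          refine (mm_le d').trans ?_
          gcongr
          refine (sup_mono (P := P) fun i => ⟨i, ?_⟩).trans ((sup_le _).trans (by
            gcongr; exact one_le_two))
          rw [hP, comp_C_mul_X_coeff]; simp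
      _ = _ := by ring
  have v2 : ‖aeval (ξ : ℂ) R‖ ≤ ‖aeval (θ : ℂ) P‖ * (K * mm P) := by
    rw [← hθ, Complex.ofReal_pow, ← expand_aeval, hR, map_mul, norm_mul, hP, aeval_comp]
    gcongr
    exact (hK P b _ 0 (by simp) (by simp; positivity)).1
  refine (min_le_right _ _).trans ((div_le_iff₀ (by positivity)).mpr (E.trans ?_))
  calc _ ≤ (L * mm P ^ 2) ^ (10800 * N) * (‖aeval (θ : ℂ) P‖ * (K * mm P)) := by
        have := mm1 R0
        gcongr
    _ = mm P ^ (21600 * N + 1) * ‖aeval (θ : ℂ) P‖ * (L ^ (10800 * N) * K) := by ring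
    _ ≤ _ := by gcongr; omega

lemma low2 (hθ : θ ^ 2 = ξ) (θ0 : 0 < θ) {N E : ℕ} {w : ℝ} (w0 : 0 ≤ w)
    (hw : (w + 1) * (N + 2) + 2 ≤ 2 ^ E) (E3 : 2 ≤ E) (h : ∀ K, ∃ k, K ≤ k ∧ n k = N ∧ e k = E) :
    (wsS (N * 2) θ w).Infinite := by
  have E4 : 3 ≤ 2 ^ E := le_trans (by norm_num) (Nat.pow_le_pow_right two_pos E3)
  refine lowS (a := N + 2) w0 (by push_cast; linarith) E4 fun K => ?_
  obtain ⟨k, k1, rfl, rfl⟩ := h ⌈max K (max θ⁻¹ ξ⁻¹)⌉₊
  obtain ⟨a0, a1, a2, -, a3, a4, a5, a6, -⟩ := G.2.2.2 k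
  have B1 := G.B1 k
  have K1 : max K (max θ⁻¹ ξ⁻¹) ≤ B k := by linarith [Nat.ceil_le.mp k1]
  simp only [max_le_iff, inv_le_iff_one_le_mul₀ θ0, inv_le_iff_one_le_mul₀ G.1] at K1
  have p := (mul_pos_iff_of_pos_left (by positivity)).mp (one_pos.trans_le a5)
  have α0 : 0 ≤ α k := by
    have : B k * (B k * (ξ - α k)) ≤ B k * 1 := by
      rw [← mul_assoc, ← sq, mul_one]; exact le_trans (by gcongr; omega) a6
    have := le_of_mul_le_mul_left this (by linarith)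
    nlinarith
  have s0 := Real.sqrt_nonneg (α k)
  have s1 := Real.sq_sqrt α0
  have q : 0 < θ - √(α k) := by nlinarith
  refine ⟨_, √(α k), B k, K1.1, a0 2 two_pos, by rw [natDegree_expand, a1], by
    rw [expand_aeval, s1, a4], le_trans (sup_mono fun i => ⟨i / 2, ?_⟩) a3, abs_pos.mpr q.ne', ?_⟩
  · rw [coeff_expand two_pos]; split_ifs <;> simp
  rw [abs_of_pos q]
  calc _ ≤ B k ^ 2 ^ e k * (B k * θ * (θ - √(α k))) := by
        gcongr; exact le_mul_of_one_le_left q.le K1.2.1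
    _ ≤ B k ^ 2 ^ e k * (B k * (ξ - α k)) := by rw [mul_assoc (B k)]; gcongr; nlinarith
    _ ≤ _ := by rw [mul_left_comm, sq]; gcongr

end Good

theorem sqr : ∃ θ : ℝ, (∀ N, 1 ≤ N → Up θ N (65536 * N) ∧ Up (θ ^ 2) N (131072 * N)) ∧
    ∀ K, (∃ N : ℕ, K ≤ N ∧ (wsS N θ (1 * (N + 1))).Infinite) ∧ ∃ N : ℕ, K ≤ N ∧
      (wS N (θ ^ 2) (90000 * (N + 1))).Infinite ∧ (wsS N (θ ^ 2) (90000 * (N + 1))).Infinite := by
  obtain ⟨ξ, M, B, α, G⟩ : ∃ ξ M B α, Good (fun k => 64 ^ (k.unpair.1 + 1) + 9)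
      (fun k => 12 * (k.unpair.1 + 1) + 17) ξ M B α := main _ _ (fun k => by
    generalize k.unpair.1 = j
    induction j with
    | zero => simp
    | succ j ih => rw [pow_succ]; omega) (by omega)
  have e : ∀ j, 2 ^ (12 * j + 17) = 131072 * (64 ^ j) ^ 2 := fun j => by
    rw [show 64 = 2 ^ 6 by rfl, ← pow_mul, ← pow_mul]; ring
  have s := Real.sq_sqrt G.1.le
  refine ⟨√ξ, fun N h => ⟨G.up2 s h (by omega) fun k hk => ?_, s.symm ▸ G.up h (by omega) fun k hk => ?_⟩,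
    fun K => ?_⟩
  · simp only [e] at hk ⊢
    generalize 64 ^ (k.unpair.1 + 1) = x at *
    nlinarith [Nat.mul_le_mul_left (x + 9) hk]
  · simp only [e] at hk ⊢
    generalize 64 ^ (k.unpair.1 + 1) = x at *
    nlinarith [Nat.mul_le_mul_left (x + 9) hk]
  have x1 : K < 64 ^ (K + 1) := (Nat.lt_succ_self K).trans (Nat.lt_pow_self (by norm_num))
  have x2 : (64 : ℝ) ≤ 64 ^ (K + 1) := le_self_pow₀ (by norm_num) (by omega)
  have e' : (2 : ℝ) ^ (12 * (K + 1) + 17) = 131072 * (64 ^ (K + 1)) ^ 2 := by exact_mod_cast e _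
  have u : ∀ J, ∃ k : ℕ, J ≤ k ∧ 64 ^ (k.unpair.1 + 1) + 9 = 64 ^ (K + 1) + 9 ∧
    12 * (k.unpair.1 + 1) + 17 = 12 * (K + 1) + 17 :=
    fun J => ⟨Nat.pair K J, Nat.right_le_pair _ _, by simp⟩
  refine ⟨⟨(64 ^ (K + 1) + 9) * 2, by omega, G.low2 s (Real.sqrt_pos.mpr G.1) (by positivity) ?_ (by omega) u⟩,
    64 ^ (K + 1) + 9, by omega, s.symm ▸ G.low (by positivity) ?_ (by omega) u⟩ <;> push_cast <;>
    rw [e'] <;> nlinarith

end Pool.Agent.H46.Tn
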